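import Pool.Agent.Helper63.HF.Base

/-! Module INT: integrability of the kernels. -/

noncomputable section

namespace Pool.Agent.Helper63.HF

open Complex MeasureTheory ComplexConjugate Finset

/-- The radial integrability. -/
theorem INT_rad {β γ : ℝ} (hβ : β < 2) (hγ : γ - β < -2) :
    Integrable (fun y : ℂ => (1 + ‖y‖) ^ γ * ‖y‖ ^ (-β)) := by
  have key := integrable_fun_norm_addHaar (E := ℂ) (volume : Measure ℂ)
    (f := fun r : ℝ => (1 + r) ^ γ * r ^ (-β))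
  rw [key]
  rw [Complex.finrank_real_complex]
  have hmeas : Measurable (fun r : ℝ => r ^ (2 - 1) • ((1 + r) ^ γ * r ^ (-β))) := by
    simp only [smul_eq_mul]
    exact (measurable_id.pow_const _).mul
      (((measurable_const.add measurable_id).pow_const γ).mul (measurable_id.pow_const (-β)))
  rw [← Set.Ioc_union_Ioi_eq_Ioi (zero_le_one' ℝ), integrableOn_union]
  constructor
  · have h1 : IntegrableOn (fun r : ℝ => (2 : ℝ) ^ |γ| * r ^ (1 - β)) (Set.Ioc 0 1) := by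
      have := (intervalIntegral.intervalIntegrable_rpow' (a := 0) (b := 1)
        (show -1 < 1 - β by linarith)).const_mul ((2 : ℝ) ^ |γ|)
      exact (intervalIntegrable_iff_integrableOn_Ioc_of_le zero_le_one).1 this
    refine Integrable.mono' h1 hmeas.aestronglyMeasurable ?_
    filter_upwards [ae_restrict_mem measurableSet_Ioc] with r hr
    obtain ⟨h0, h1'⟩ := hr
    have e1 : r ^ (2 - 1) • ((1 + r) ^ γ * r ^ (-β)) = (1 + r) ^ γ * r ^ (1 - β) := by
      rw [smul_eq_mul, Real.rpow_sub h0, Real.rpow_one, Real.rpow_neg h0.le]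
      ring
    rw [e1, Real.norm_of_nonneg (by positivity)]
    refine mul_le_mul_of_nonneg_right ?_ (by positivity)
    calc (1 + r) ^ γ ≤ (1 + r) ^ |γ| :=
          Real.rpow_le_rpow_of_exponent_le (by linarith) (le_abs_self γ)
      _ ≤ 2 ^ |γ| := Real.rpow_le_rpow (by linarith) (by linarith) (abs_nonneg γ)
  · have h1 : IntegrableOn (fun r : ℝ => (2 : ℝ) ^ |γ| * r ^ (1 - β + γ)) (Set.Ioi 1) :=
      (integrableOn_Ioi_rpow_of_lt (by linarith) zero_lt_one).const_mul _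
    refine Integrable.mono' h1 hmeas.aestronglyMeasurable ?_
    filter_upwards [ae_restrict_mem measurableSet_Ioi] with r hr
    have h1' : (1 : ℝ) < r := hr
    have h0 : 0 < r := by linarith
    have e1 : r ^ (2 - 1) • ((1 + r) ^ γ * r ^ (-β)) = (1 + r) ^ γ * r ^ (1 - β) := by
      rw [smul_eq_mul, Real.rpow_sub h0, Real.rpow_one, Real.rpow_neg h0.le]
      ring
    rw [e1, Real.norm_of_nonneg (by positivity), Real.rpow_add h0, mul_comm (r ^ (1 - β)),
      ← mul_assoc]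
    refine mul_le_mul_of_nonneg_right ?_ (by positivity)
    rcases le_total 0 γ with h | h
    · rw [abs_of_nonneg h, ← Real.mul_rpow (by norm_num) h0.le]
      exact Real.rpow_le_rpow (by linarith) (by linarith) h
    · calc (1 + r) ^ γ ≤ r ^ γ := Real.rpow_le_rpow_of_nonpos h0 (by linarith) h
        _ = 1 * r ^ γ := (one_mul _).symm
        _ ≤ 2 ^ |γ| * r ^ γ := by
          refine mul_le_mul_of_nonneg_right ?_ (by positivity)
          exact Real.one_le_rpow (by norm_num) (abs_nonneg γ)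

theorem INT_comp {a b γ : ℝ} (ha : 0 < a) (hb : 0 < b) (hab : a ≤ 2 * b) (hba : b ≤ 2 * a) :
    a ^ γ ≤ 2 ^ |γ| * b ^ γ := by
  rcases le_total 0 γ with h | h
  · rw [abs_of_nonneg h, ← Real.mul_rpow (by norm_num) hb.le]
    exact Real.rpow_le_rpow ha.le hab h
  · rw [abs_of_nonpos h]
    have h1 : (b / 2) ^ γ = 2 ^ (-γ) * b ^ γ := by
      rw [Real.div_rpow hb.le (by norm_num), Real.rpow_neg (by norm_num), div_eq_mul_inv, mul_comm]
    rw [← h1]
    exact Real.rpow_le_rpow_of_nonpos (by positivity) (by linarith) h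

theorem INT_tr {β γ : ℝ} (hβ : β < 2) (hγ : γ - β < -2) {ζ : ℂ} (hζ : ‖ζ‖ ≤ 1) :
    Integrable (fun y : ℂ => (1 + ‖y‖) ^ γ * ‖y - ζ‖ ^ (-β)) := by
  have h1 := ((INT_rad hβ hγ).comp_sub_right ζ).const_mul ((2 : ℝ) ^ |γ|)
  refine Integrable.mono' h1 ?_ (Filter.Eventually.of_forall fun y => ?_)
  · exact (((measurable_const.add measurable_norm).pow_const γ).mul
      (((measurable_id.sub_const ζ).norm).pow_const (-β))).aestronglyMeasurable
  · rw [Real.norm_of_nonneg (by positivity), ← mul_assoc]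
    refine mul_le_mul_of_nonneg_right ?_ (by positivity)
    have h2 : ‖y‖ ≤ ‖y - ζ‖ + ‖ζ‖ := by
      calc ‖y‖ = ‖(y - ζ) + ζ‖ := by rw [sub_add_cancel]
        _ ≤ _ := norm_add_le _ _
    have h3 : ‖y - ζ‖ ≤ ‖y‖ + ‖ζ‖ := norm_sub_le _ _
    have h4 := norm_nonneg (y - ζ)
    have h5 := norm_nonneg y
    exact INT_comp (by linarith) (by linarith) (by linarith) (by linarith)

/-- the roots of unity -/
theorem INT_prod {L : ℕ} (hL : 0 < L) (y : ℂ) :
    ‖1 - y ^ L‖ = ∏ ζ ∈ Polynomial.nthRootsFinset L (1 : ℂ), ‖y - ζ‖ := by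
  have h := Polynomial.X_pow_sub_one_eq_prod hL (Complex.isPrimitiveRoot_exp L hL.ne')
  have h2 := congrArg (Polynomial.eval y) h
  rw [Polynomial.eval_prod] at h2
  simp only [Polynomial.eval_sub, Polynomial.eval_pow, Polynomial.eval_X, Polynomial.eval_one,
    Polynomial.eval_C] at h2
  rw [norm_sub_rev, h2, norm_prod]

theorem INT_sep (S : Finset ℂ) : ∃ δ : ℝ, 0 < δ ∧ δ ≤ 1 ∧ ∀ ζ ∈ S, ∀ ζ' ∈ S, ζ ≠ ζ' →
    δ ≤ ‖ζ - ζ'‖ := by
  classical
  let T : Finset ℝ := insert 1 (((S ×ˢ S).filter (fun p => p.1 ≠ p.2)).image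
    (fun p => ‖p.1 - p.2‖))
  have hT : T.Nonempty := ⟨1, Finset.mem_insert_self _ _⟩
  refine ⟨T.min' hT, ?_, T.min'_le 1 (Finset.mem_insert_self _ _), ?_⟩
  · rw [Finset.lt_min'_iff]
    intro t ht
    rcases Finset.mem_insert.1 ht with h | h
    · rw [h]; norm_num
    · obtain ⟨p, hp, rfl⟩ := Finset.mem_image.1 h
      exact norm_pos_iff.2 (sub_ne_zero.2 (Finset.mem_filter.1 hp).2)
  · intro ζ hζ ζ' hζ' hne
    refine T.min'_le _ (Finset.mem_insert_of_mem (Finset.mem_image.2 ⟨(ζ, ζ'), ?_, rfl⟩))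
    exact Finset.mem_filter.2 ⟨Finset.mem_product.2 ⟨hζ, hζ'⟩, hne⟩

theorem INT_near {L : ℕ} (hL : 0 < L) : ∃ c : ℝ, 0 < c ∧ ∀ y : ℂ,
    ∃ ζ ∈ Polynomial.nthRootsFinset L (1 : ℂ),
      (∀ ρ ∈ Polynomial.nthRootsFinset L (1 : ℂ), ‖y - ζ‖ ≤ ‖y - ρ‖) ∧
      (c * (1 + ‖y‖)) ^ (L - 1) * ‖y - ζ‖ ≤ ‖1 - y ^ L‖ := by
  classical
  set S := Polynomial.nthRootsFinset L (1 : ℂ) with hS
  obtain ⟨δ, hδ, hδ1, hsep⟩ := INT_sep S
  refine ⟨δ / 6, by positivity, fun y => ?_⟩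
  have hne : S.Nonempty := ⟨1, by
    rw [hS, Polynomial.mem_nthRootsFinset hL]; exact one_pow _⟩
  obtain ⟨ζ, hζ, hmin⟩ := Finset.exists_min_image S (fun ρ => ‖y - ρ‖) hne
  refine ⟨ζ, hζ, hmin, ?_⟩
  rw [INT_prod hL y, ← Finset.prod_erase_mul S _ hζ]
  refine mul_le_mul_of_nonneg_right ?_ (norm_nonneg _)
  have hcard : (S.erase ζ).card = L - 1 := by
    rw [Finset.card_erase_of_mem hζ, hS,
      (Complex.isPrimitiveRoot_exp L hL.ne').card_nthRootsFinset]
  rw [← hcard, ← Finset.prod_const]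
  refine Finset.prod_le_prod (fun _ _ => by positivity) (fun ρ hρ => ?_)
  obtain ⟨hρne, hρS⟩ := Finset.mem_erase.1 hρ
  have h1 : δ ≤ ‖ρ - ζ‖ := hsep ρ hρS ζ hζ hρne
  have h2 : ‖ρ - ζ‖ ≤ ‖y - ρ‖ + ‖y - ζ‖ := by
    calc ‖ρ - ζ‖ = ‖(y - ζ) - (y - ρ)‖ := by congr 1; ring
      _ ≤ ‖y - ζ‖ + ‖y - ρ‖ := norm_sub_le _ _
      _ = _ := add_comm _ _
  have h3 := hmin ρ hρS
  have hρ1 : ‖ρ‖ = 1 := by
    rw [hS, Polynomial.mem_nthRootsFinset hL] at hρS
    exact Complex.norm_eq_one_of_pow_eq_one hρS hL.ne'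
  have h4 : ‖y‖ ≤ ‖y - ρ‖ + 1 := by
    calc ‖y‖ = ‖(y - ρ) + ρ‖ := by rw [sub_add_cancel]
      _ ≤ ‖y - ρ‖ + ‖ρ‖ := norm_add_le _ _
      _ = _ := by rw [hρ1]
  have h5 := norm_nonneg y
  rcases le_total ‖y‖ 2 with h | h
  · nlinarith
  · nlinarith

/-- The main estimate. -/
theorem INT_main {L K K' : ℕ} {α ε : ℝ} (hL : 0 < L) (hα : 0 < α)
    (hK : 0 < K) (hK' : 0 < K') (hε1 : 2 * α + ε < 2)
    (hε2 : (K : ℝ) + K' - 2 * α * L + ε < 0) {g : ℂ → ℝ} (hg : Measurable g) {C : ℝ}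
    (hC : 0 ≤ C) (hgb : ∀ y ζ : ℂ, ζ ∈ Polynomial.nthRootsFinset L (1 : ℂ) →
      (∀ ρ ∈ Polynomial.nthRootsFinset L (1 : ℂ), ‖y - ζ‖ ≤ ‖y - ρ‖) → 0 < ‖y - ζ‖ →
      |g y| ≤ C * ((1 + ‖y‖) ^ (2 * ε) * ‖y - ζ‖ ^ (-ε))) :
    Integrable (fun y => (g y : ℂ) * kern L α K K' y) := by
  obtain ⟨c, hc, hnear⟩ := INT_near hL
  set S := Polynomial.nthRootsFinset L (1 : ℂ) with hS
  set γ : ℝ := (K : ℝ) + K' - 2 - 2 * α * (L - 1) + 2 * ε with hγ
  set β : ℝ := 2 * α + ε with hβ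
  set D : ℝ := C * (c ^ (L - 1)) ^ (-(2 * α)) with hD
  have hD0 : 0 ≤ D := by positivity
  have hmaj : Integrable (fun y : ℂ => ∑ ζ ∈ S, D * ((1 + ‖y‖) ^ γ * ‖y - ζ‖ ^ (-β))) := by
    refine integrable_finsetSum _ (fun ζ hζ => ?_)
    refine (INT_tr (by linarith) ?_ ?_).const_mul D
    · rw [hγ, hβ]; nlinarith
    · rw [hS, Polynomial.mem_nthRootsFinset hL] at hζ
      exact (Complex.norm_eq_one_of_pow_eq_one hζ hL.ne').le
  have hLr : (1 : ℝ) ≤ L := by exact_mod_cast hL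
  refine Integrable.mono' hmaj ?_ (Filter.Eventually.of_forall fun y => ?_)
  · have hW : Measurable (W L α) := by
      unfold W
      exact ((measurable_const.sub (measurable_id.pow_const L)).norm).pow_const _
    have hk : Measurable (kern L α K K') := by
      unfold kern
      exact ((measurable_id.pow_const (K - 1)).mul
        ((Complex.continuous_conj.measurable).pow_const (K' - 1))).mul
        (Complex.measurable_ofReal.comp hW)
    exact ((Complex.measurable_ofReal.comp hg).mul hk).aestronglyMeasurable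
  · obtain ⟨ζ, hζ, hmin, hle⟩ := hnear y
    have hterm : ‖(g y : ℂ) * kern L α K K' y‖ ≤ D * ((1 + ‖y‖) ^ γ * ‖y - ζ‖ ^ (-β)) := by
      have hy0 := norm_nonneg y
      rcases eq_or_lt_of_le (norm_nonneg (y - ζ)) with h0 | h0
      · have hyζ : y = ζ := sub_eq_zero.1 (norm_eq_zero.1 h0.symm)
        have hy1 : 1 - y ^ L = 0 := by
          rw [hS, Polynomial.mem_nthRootsFinset hL] at hζ
          rw [hyζ, hζ, sub_self]
        have : kern L α K K' y = 0 := by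
          unfold kern W
          rw [hy1, norm_zero, Real.zero_rpow (by linarith), Complex.ofReal_zero, mul_zero]
        rw [this, mul_zero, norm_zero]
        positivity
      · have h1 := hgb y ζ hζ hmin h0
        have h2 : W L α y ≤ (c ^ (L - 1)) ^ (-(2 * α)) *
            ((1 + ‖y‖) ^ (-(2 * α * (L - 1))) * ‖y - ζ‖ ^ (-(2 * α))) := by
          unfold W
          have e1 : (c ^ (L - 1)) ^ (-(2 * α)) *
              ((1 + ‖y‖) ^ (-(2 * α * ((L : ℝ) - 1))) * ‖y - ζ‖ ^ (-(2 * α))) =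
              ((c * (1 + ‖y‖)) ^ (L - 1) * ‖y - ζ‖) ^ (-(2 * α)) := by
            have e5 : ((1 + ‖y‖) ^ (L - 1)) ^ (-(2 * α)) =
                (1 + ‖y‖) ^ (-(2 * α * ((L : ℝ) - 1))) := by
              rw [← Real.rpow_natCast (1 + ‖y‖) (L - 1), ← Real.rpow_mul (by positivity),
                Nat.cast_sub hL, Nat.cast_one]
              congr 1
              ring
            rw [Real.mul_rpow (by positivity) h0.le, mul_pow,
              Real.mul_rpow (by positivity) (by positivity), e5]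
            ring
          rw [e1]
          exact Real.rpow_le_rpow_of_nonpos (by positivity) hle (by linarith)
        have h3 : ‖kern L α K K' y‖ ≤ (1 + ‖y‖) ^ ((K : ℝ) + K' - 2) * W L α y := by
          unfold kern
          have hW0 : 0 ≤ W L α y := Real.rpow_nonneg (norm_nonneg _) _
          rw [norm_mul, norm_mul, norm_pow, norm_pow, RCLike.norm_conj, Complex.norm_real,
            Real.norm_of_nonneg hW0]
          refine mul_le_mul_of_nonneg_right ?_ hW0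
          have e2 : (1 + ‖y‖) ^ ((K : ℝ) + K' - 2) = (1 + ‖y‖) ^ (K - 1) * (1 + ‖y‖) ^ (K' - 1) := by
            rw [← pow_add, ← Real.rpow_natCast (1 + ‖y‖), Nat.cast_add, Nat.cast_sub hK,
              Nat.cast_sub hK']
            congr 1
            push_cast
            ring
          rw [e2]
          exact mul_le_mul (pow_le_pow_left₀ hy0 (by linarith) _)
            (pow_le_pow_left₀ hy0 (by linarith) _) (by positivity) (by positivity)
        calc ‖(g y : ℂ) * kern L α K K' y‖ = |g y| * ‖kern L α K K' y‖ := by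
              rw [norm_mul, Complex.norm_real, Real.norm_eq_abs]
          _ ≤ (C * ((1 + ‖y‖) ^ (2 * ε) * ‖y - ζ‖ ^ (-ε))) *
              ((1 + ‖y‖) ^ ((K : ℝ) + K' - 2) * ((c ^ (L - 1)) ^ (-(2 * α)) *
            ((1 + ‖y‖) ^ (-(2 * α * (L - 1))) * ‖y - ζ‖ ^ (-(2 * α))))) := by
              refine mul_le_mul h1 (h3.trans ?_) (norm_nonneg _) (by positivity)
              exact mul_le_mul_of_nonneg_left h2 (by positivity)
          _ = D * ((1 + ‖y‖) ^ γ * ‖y - ζ‖ ^ (-β)) := by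
              have e3 : (1 + ‖y‖) ^ γ = (1 + ‖y‖) ^ (2 * ε) * (1 + ‖y‖) ^ ((K : ℝ) + K' - 2) *
                  (1 + ‖y‖) ^ (-(2 * α * ((L : ℝ) - 1))) := by
                rw [← Real.rpow_add (by positivity), ← Real.rpow_add (by positivity)]
                congr 1
                rw [hγ]; ring
              have e4 : ‖y - ζ‖ ^ (-β) = ‖y - ζ‖ ^ (-ε) * ‖y - ζ‖ ^ (-(2 * α)) := by
                rw [← Real.rpow_add h0]
                congr 1
                rw [hβ]; ring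
              rw [e3, e4, hD]
              ring
    refine hterm.trans ?_
    exact Finset.single_le_sum (f := fun ζ => D * ((1 + ‖y‖) ^ γ * ‖y - ζ‖ ^ (-β)))
      (fun _ _ => by positivity) hζ

theorem INT_exists_eps {L K K' : ℕ} {α : ℝ} (hα1 : α < 1)
    (h : (K : ℝ) < α * L) (h' : (K' : ℝ) < α * L) :
    ∃ ε : ℝ, 0 < ε ∧ 2 * α + ε < 2 ∧ (K : ℝ) + K' - 2 * α * L + ε < 0 := by
  refine ⟨min ((2 - 2 * α) / 2) ((2 * α * L - K - K') / 2), ?_, ?_, ?_⟩
  · apply lt_min <;> linarith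
  · have := min_le_left ((2 - 2 * α) / 2) ((2 * α * L - K - K') / 2)
    linarith
  · have := min_le_right ((2 - 2 * α) / 2) ((2 * α * L - K - K') / 2)
    linarith

theorem INT_one {y ζ : ℂ} {ε : ℝ} (hε : 0 < ε) (hζ : ‖ζ‖ = 1) (h0 : 0 < ‖y - ζ‖) :
    1 ≤ (1 + ‖y‖) ^ ε * ‖y - ζ‖ ^ (-ε) := by
  have h1 : ‖y - ζ‖ ≤ 1 + ‖y‖ := by
    have := norm_sub_le y ζ
    rw [hζ] at this
    linarith
  have h2 : 0 < 1 + ‖y‖ := by positivity
  rw [Real.rpow_neg h0.le, ← div_eq_mul_inv, one_le_div (by positivity)]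
  exact Real.rpow_le_rpow h0.le h1 hε.le

theorem kern_int {L K K' : ℕ} {α : ℝ} (hL : 0 < L) (hα : 0 < α) (hα1 : α < 1) (hK : 0 < K)
    (hK' : 0 < K') (h : (K : ℝ) < α * L) (h' : (K' : ℝ) < α * L) :
    Integrable (kern L α K K') := by
  obtain ⟨ε, hε, hε1, hε2⟩ := INT_exists_eps (L := L) (K := K) (K' := K') hα1 h h'
  have := INT_main (g := fun _ => 1) hL hα hK hK' hε1 hε2 measurable_const zero_le_one (by
    intro y ζ hζ _ h0
    rw [Polynomial.mem_nthRootsFinset hL] at hζ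
    have hζ1 := Complex.norm_eq_one_of_pow_eq_one hζ hL.ne'
    have h1 := INT_one hε hζ1 h0
    rw [abs_one, one_mul]
    have h2 : (1 + ‖y‖) ^ ε ≤ (1 + ‖y‖) ^ (2 * ε) :=
      Real.rpow_le_rpow_of_exponent_le (by linarith [norm_nonneg y]) (by linarith)
    exact h1.trans (mul_le_mul_of_nonneg_right h2 (by positivity)))
  simpa using this

theorem INT_log {t ε : ℝ} (ht : 0 < t) (hε : 0 < ε) :
    |Real.log t| ≤ (t ^ ε + t ^ (-ε)) / ε := by
  have h1 := Real.log_le_rpow_div ht.le hε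
  have h2 := Real.log_le_rpow_div (inv_pos.2 ht).le hε
  rw [Real.log_inv, Real.inv_rpow ht.le, ← Real.rpow_neg ht.le] at h2
  have h3 : 0 < t ^ ε / ε := by positivity
  have h4 : 0 < t ^ (-ε) / ε := by positivity
  rw [add_div, abs_le]
  constructor <;> linarith

theorem lgr_int {L K K' : ℕ} {α : ℝ} (hL : 0 < L) (hα : 0 < α) (hα1 : α < 1) (hK : 0 < K)
    (hK' : 0 < K') (h : (K : ℝ) < α * L) (h' : (K' : ℝ) < α * L) {ρ : ℂ} (hρ : ρ ^ L = 1) :
    Integrable (fun y => (lgr ρ y : ℂ) * kern L α K K' y) := by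
  obtain ⟨ε, hε, hε1, hε2⟩ := INT_exists_eps (L := L) (K := K) (K' := K') hα1 h h'
  have hm : Measurable (lgr ρ) := by
    unfold lgr
    exact Real.measurable_log.comp (measurable_id.sub_const ρ).norm
  refine INT_main (C := 2 / ε) hL hα hK hK' hε1 hε2 hm (by positivity) ?_
  intro y ζ hζ hmin h0
  have hρS : ρ ∈ Polynomial.nthRootsFinset L (1 : ℂ) := (Polynomial.mem_nthRootsFinset hL _).2 hρ
  have hρ1 := Complex.norm_eq_one_of_pow_eq_one hρ hL.ne'
  have hζ1 := Complex.norm_eq_one_of_pow_eq_one ((Polynomial.mem_nthRootsFinset hL _).1 hζ) hL.ne'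
  have h1 := hmin ρ hρS
  have h2 : 0 < ‖y - ρ‖ := lt_of_lt_of_le h0 h1
  have h3 := INT_log h2 hε
  have h4 : ‖y - ρ‖ ^ (-ε) ≤ ‖y - ζ‖ ^ (-ε) :=
    Real.rpow_le_rpow_of_nonpos h0 h1 (by linarith)
  have h5 : ‖y - ρ‖ ^ ε ≤ (1 + ‖y‖) ^ ε := by
    refine Real.rpow_le_rpow h2.le ?_ hε.le
    have := norm_sub_le y ρ
    rw [hρ1] at this
    linarith
  have h6 := INT_one hε hζ1 h0
  have hy1 : (1 : ℝ) ≤ 1 + ‖y‖ := by linarith [norm_nonneg y]
  have h7 : (1 : ℝ) ≤ (1 + ‖y‖) ^ (2 * ε) := Real.one_le_rpow hy1 (by linarith)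
  have e1 : (1 + ‖y‖) ^ (2 * ε) = (1 + ‖y‖) ^ ε * (1 + ‖y‖) ^ ε := by
    rw [← Real.rpow_add (by positivity)]; congr 1; ring
  have h8 : (1 + ‖y‖) ^ ε ≤ (1 + ‖y‖) ^ (2 * ε) * ‖y - ζ‖ ^ (-ε) := by
    rw [e1, mul_assoc]
    exact le_mul_of_one_le_right (by positivity) h6
  have h9 : ‖y - ζ‖ ^ (-ε) ≤ (1 + ‖y‖) ^ (2 * ε) * ‖y - ζ‖ ^ (-ε) :=
    le_mul_of_one_le_left (by positivity) h7
  unfold lgr
  refine h3.trans ?_
  rw [div_mul_eq_mul_div]
  refine div_le_div_of_nonneg_right ?_ hε.le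
  linarith

end Pool.Agent.Helper63.HF
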