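import Pool.Agent.Helper63.HF.Base

/-! The closure of the regulator image is a real subspace. -/

noncomputable section

namespace Pool.Agent.Helper63.HF

open Complex MeasureTheory ComplexConjugate Set

/-- the set of regulators of cycles, with denominators -/
def img (r N M : ℕ) : Set ((Idx r N M → ℂ) × ℝ × ℝ) :=
  {v | ∃ (m : ℕ) (ξ : List (Term r N M)), 0 < m ∧ IsCycle ξ ∧ v = (m : ℝ)⁻¹ • vec ξ}

/-- the term with the inverse function -/
def Term.invT {r N M : ℕ} (t : Term r N M) : Term r N M := ⟨t.L, t.pos, t.φ, t.ψ, t.f.inv⟩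

theorem alg_lg_inv (f : Fn) (y : ℂ) : f.inv.lg y = -f.lg y := by
  unfold Fn.lg Fn.inv
  rw [Finsupp.sum_neg_index (by simp)]
  simp only [norm_inv, Real.log_inv, Finsupp.sum]
  rw [neg_add, ← Finset.sum_neg_distrib]
  congr 1
  refine Finset.sum_congr rfl fun x _ => ?_
  push_cast
  ring

theorem alg_multiset_sum_neg {A B : Type*} [AddCommGroup B] (s : Multiset A) (f : A → B) :
    (s.map fun x => -f x).sum = -(s.map f).sum := by
  induction s using Multiset.induction_on with
  | empty => simp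
  | cons a s ih => simp only [Multiset.map_cons, Multiset.sum_cons, ih]; abel

theorem alg_bdry_inv {r N M : ℕ} (t : Term r N M) : t.invT.bdry = -t.bdry := by
  unfold Term.bdry Term.invT Fn.inv
  simp only
  rw [Finsupp.sum_neg_index]
  · simp only [Finsupp.sum, ← Finset.sum_neg_distrib]
    refine Finset.sum_congr rfl fun ρ _ => ?_
    rw [← alg_multiset_sum_neg]
    simp only [Finsupp.single_neg]
  · intro a
    simp

theorem alg_int_inv {r N M : ℕ} (t : Term r N M) (h : ℂ → ℂ → ℂ) :
    t.invT.int h = -t.int h := by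
  unfold Term.int Term.invT
  simp only
  rw [← integral_neg]
  congr 1
  funext y
  rw [alg_lg_inv]
  push_cast
  ring

theorem alg_vec_inv {r N M : ℕ} (t : Term r N M) : t.invT.vec = -t.vec := by
  have h1 : ∀ h : ℂ → ℂ → ℂ, t.invT.int h = -t.int h := alg_int_inv t
  unfold Term.vec
  refine Prod.ext ?_ (Prod.ext ?_ ?_)
  · funext i
    exact h1 _
  · simp only [Prod.fst_neg, Prod.snd_neg]
    rw [← Complex.neg_re]
    congr 1
    exact h1 _
  · simp only [Prod.snd_neg]
    rw [← Complex.neg_re]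
    congr 1
    exact h1 _

theorem alg_sum_neg {A B : Type*} [AddCommGroup B] (l : List A) (f : A → B) :
    (l.map fun x => -f x).sum = -(l.map f).sum := by
  induction l with
  | nil => simp
  | cons a l ih => simp only [List.map_cons, List.sum_cons, ih]; abel

theorem alg_vec_append {r N M : ℕ} (ξ η : List (Term r N M)) :
    vec (ξ ++ η) = vec ξ + vec η := by
  simp [vec]

theorem alg_cyc_append {r N M : ℕ} {ξ η : List (Term r N M)} (h : IsCycle ξ) (h' : IsCycle η) :
    IsCycle (ξ ++ η) := by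
  unfold IsCycle at *
  simp [h, h']

theorem alg_vec_neg {r N M : ℕ} (ξ : List (Term r N M)) :
    vec (ξ.map Term.invT) = -vec ξ := by
  unfold vec
  rw [List.map_map, ← alg_sum_neg]
  congr 2
  funext t
  exact alg_vec_inv t

theorem alg_cyc_neg {r N M : ℕ} {ξ : List (Term r N M)} (h : IsCycle ξ) :
    IsCycle (ξ.map Term.invT) := by
  unfold IsCycle at *
  rw [List.map_map]
  have : (ξ.map (Term.bdry ∘ Term.invT)).sum = -(ξ.map Term.bdry).sum := by
    rw [← alg_sum_neg]
    congr 2
    funext t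
    exact alg_bdry_inv t
  rw [this, h, neg_zero]

/-- natural multiples -/
theorem alg_nsmul {r N M : ℕ} {ξ : List (Term r N M)} (h : IsCycle ξ) (k : ℕ) :
    ∃ η : List (Term r N M), IsCycle η ∧ vec η = (k : ℝ) • vec ξ := by
  induction k with
  | zero => exact ⟨[], by simp [IsCycle], by simp [vec]⟩
  | succ k ih =>
    obtain ⟨η, h1, h2⟩ := ih
    refine ⟨η ++ ξ, alg_cyc_append h1 h, ?_⟩
    rw [alg_vec_append, h2]
    push_cast
    rw [add_smul, one_smul]

/-- integral multiples -/
theorem alg_zsmul {r N M : ℕ} {ξ : List (Term r N M)} (h : IsCycle ξ) (k : ℤ) :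
    ∃ η : List (Term r N M), IsCycle η ∧ vec η = (k : ℝ) • vec ξ := by
  obtain ⟨n, rfl | rfl⟩ := Int.eq_nat_or_neg k
  · obtain ⟨η, h1, h2⟩ := alg_nsmul h n
    exact ⟨η, h1, by simpa using h2⟩
  · obtain ⟨η, h1, h2⟩ := alg_nsmul (alg_cyc_neg h) n
    refine ⟨η, h1, ?_⟩
    rw [h2, alg_vec_neg]
    push_cast
    rw [smul_neg, neg_smul]

/-- the rational subspace -/
def imgQ (r N M : ℕ) : Submodule ℚ ((Idx r N M → ℂ) × ℝ × ℝ) where
  carrier := img r N M
  zero_mem' := ⟨1, [], one_pos, by simp [IsCycle], by simp [vec]⟩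
  add_mem' := by
    rintro v v' ⟨m, ξ, hm, hξ, rfl⟩ ⟨m', ξ', hm', hξ', rfl⟩
    obtain ⟨η, h1, h2⟩ := alg_nsmul hξ m'
    obtain ⟨η', h1', h2'⟩ := alg_nsmul hξ' m
    refine ⟨m * m', η ++ η', Nat.mul_pos hm hm', alg_cyc_append h1 h1', ?_⟩
    rw [alg_vec_append, h2, h2', smul_add, smul_smul, smul_smul]
    have e1 : (m : ℝ) ≠ 0 := by positivity
    have e2 : (m' : ℝ) ≠ 0 := by positivity
    congr 2
    · push_cast; field_simp
    · push_cast; field_simp
  smul_mem' := by
    rintro q v ⟨m, ξ, hm, hξ, rfl⟩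
    obtain ⟨η, h1, h2⟩ := alg_zsmul hξ q.num
    refine ⟨q.den * m, η, Nat.mul_pos q.den_pos hm, h1, ?_⟩
    rw [h2, smul_smul, ← Rat.cast_smul_eq_qsmul ℝ q, smul_smul]
    congr 1
    have e1 : (m : ℝ) ≠ 0 := by positivity
    have e2 : (q.den : ℝ) ≠ 0 := by exact_mod_cast q.den_ne_zero
    rw [Rat.cast_def]
    push_cast
    field_simp

/-- The closure of a rational subspace is a real subspace. -/
theorem alg_real_smul_mem {V : Type*} [NormedAddCommGroup V] [NormedSpace ℝ V] [Module ℚ V]
    [ContinuousConstSMul ℚ V] [IsScalarTower ℚ ℝ V] (W : Submodule ℚ V) (r : ℝ) {v : V}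
    (hv : v ∈ W.topologicalClosure) : r • v ∈ W.topologicalClosure := by
  have hcl : IsClosed (W.topologicalClosure : Set V) := W.isClosed_topologicalClosure
  have hpre : IsClosed ((fun r : ℝ => r • v) ⁻¹' (W.topologicalClosure : Set V)) :=
    hcl.preimage (by fun_prop)
  have hsub : Set.range ((↑) : ℚ → ℝ) ⊆ (fun r : ℝ => r • v) ⁻¹' (W.topologicalClosure : Set V) := by
    rintro _ ⟨q, rfl⟩
    simp only [mem_preimage, SetLike.mem_coe]
    rw [Rat.cast_smul_eq_qsmul]
    exact W.topologicalClosure.smul_mem q hv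
  have := closure_minimal hsub hpre
  rw [Rat.isDenseEmbedding_coe_real.dense.closure_range] at this
  exact this (mem_univ r)

theorem exists_WW (r N M : ℕ) : ∃ WW : Submodule ℝ ((Idx r N M → ℂ) × ℝ × ℝ),
    (WW : Set ((Idx r N M → ℂ) × ℝ × ℝ)) = closure (img r N M) := by
  refine ⟨{ carrier := (imgQ r N M).topologicalClosure
            add_mem' := fun ha hb => (imgQ r N M).topologicalClosure.add_mem ha hb
            zero_mem' := (imgQ r N M).topologicalClosure.zero_mem
            smul_mem' := fun c _ hv => alg_real_smul_mem (imgQ r N M) c hv }, ?_⟩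
  rfl

end Pool.Agent.Helper63.HF
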