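import Pool.Agent.Helper63.HF.PD

/-! Angular integrals: the weight alone, and the outside of the unit circle. -/

noncomputable section

namespace Pool.Agent.Helper63.HF

open Complex MeasureTheory ComplexConjugate Finset

theorem az_expL (L : ℕ) (s θ : ℝ) :
    ((s : ℂ) * exp (θ * I)) ^ L = (s : ℂ) ^ L * exp (L * θ * I) := by
  rw [mul_pow, ← Complex.exp_nat_mul]
  congr 2
  ring

theorem az_W_shift {L : ℕ} (hL : 0 < L) (α s θ : ℝ) :
    W L α (s * exp ((θ + 2 * Real.pi / L : ℝ) * I)) = W L α (s * exp (θ * I)) := by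
  unfold W
  have hLc : (L : ℂ) ≠ 0 := by exact_mod_cast hL.ne'
  have : ((s : ℂ) * exp (((θ + 2 * Real.pi / L : ℝ) : ℂ) * I)) ^ L =
      ((s : ℂ) * exp (θ * I)) ^ L := by
    rw [az_expL, az_expL]
    congr 1
    have h : (L : ℂ) * ((θ + 2 * Real.pi / L : ℝ) : ℂ) * I =
        L * θ * I + 2 * Real.pi * I := by
      push_cast
      field_simp
    rw [h, Complex.exp_add, Complex.exp_two_pi_mul_I, mul_one]
  rw [this]

theorem ang_zero {L : ℕ} (hL : 0 < L) (α : ℝ) {δ : ℤ} (hδ : ¬ (L : ℤ) ∣ δ) (s : ℝ) :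
    ∫ θ in (-Real.pi)..Real.pi, (W L α (s * exp (θ * I)) : ℂ) * exp (δ * θ * I) = 0 := by
  set F : ℝ → ℂ := fun θ => (W L α (s * exp (θ * I)) : ℂ) * exp (δ * θ * I) with hF
  set w : ℂ := exp (2 * Real.pi * I * (δ / L)) with hw
  have hLc : (L : ℂ) ≠ 0 := by exact_mod_cast hL.ne'
  have hshift : ∀ θ : ℝ, F (θ + 2 * Real.pi / L) = w * F θ := by
    intro θ
    simp only [hF]
    rw [az_W_shift hL]
    have h : (δ : ℂ) * ((θ + 2 * Real.pi / L : ℝ) : ℂ) * I =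
        2 * Real.pi * I * (δ / L) + δ * θ * I := by
      push_cast
      field_simp
      ring
    rw [h, Complex.exp_add, ← hw]
    ring
  have hper : Function.Periodic F (2 * Real.pi) := by
    intro θ
    simp only [hF]
    have h1 : exp (((θ + 2 * Real.pi : ℝ) : ℂ) * I) = exp (θ * I) := by
      push_cast
      rw [add_mul, Complex.exp_add, Complex.exp_two_pi_mul_I, mul_one]
    have h2 : exp ((δ : ℂ) * ((θ + 2 * Real.pi : ℝ) : ℂ) * I) = exp (δ * θ * I) := by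
      push_cast
      have : (δ : ℂ) * ((θ : ℂ) + 2 * Real.pi) * I = δ * θ * I + δ * (2 * Real.pi * I) := by ring
      rw [this, Complex.exp_add, Complex.exp_int_mul_two_pi_mul_I, mul_one]
    rw [h1, h2]
  have hw1 : w ≠ 1 := by
    intro h
    rw [hw, Complex.exp_eq_one_iff] at h
    obtain ⟨n, hn⟩ := h
    apply hδ
    have hpi : (2 * Real.pi * I : ℂ) ≠ 0 := Complex.two_pi_I_ne_zero
    have h2 : (δ / L : ℂ) = n := by
      have : (2 * Real.pi * I : ℂ) * (δ / L) = (2 * Real.pi * I) * n := by rw [hn]; ring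
      exact mul_left_cancel₀ hpi this
    have h3 : (δ : ℂ) = L * n := by
      rw [← h2]
      field_simp
    exact ⟨n, by exact_mod_cast h3⟩
  have e1 : ∫ θ in (-Real.pi)..Real.pi, F (θ + 2 * Real.pi / L) =
      ∫ θ in (-Real.pi)..Real.pi, F θ := by
    rw [intervalIntegral.integral_comp_add_right]
    have h1 : Real.pi + 2 * Real.pi / L = (-Real.pi + 2 * Real.pi / L) + 2 * Real.pi := by ring
    have h2 : Real.pi = -Real.pi + 2 * Real.pi := by ring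
    rw [h1, hper.intervalIntegral_add_eq (-Real.pi + 2 * Real.pi / L) (-Real.pi)]
    congr 1
    ring
  have e2 : ∫ θ in (-Real.pi)..Real.pi, F (θ + 2 * Real.pi / L) =
      w * ∫ θ in (-Real.pi)..Real.pi, F θ := by
    simp only [hshift]
    rw [intervalIntegral.integral_const_mul]
  rw [e1] at e2
  have e3 : (w - 1) * ∫ θ in (-Real.pi)..Real.pi, F θ = 0 := by
    rw [sub_mul, ← e2, one_mul, sub_self]
  rcases mul_eq_zero.mp e3 with h | h
  · exact absurd (sub_eq_zero.mp h) hw1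
  · exact h

theorem az_ne {t : ℝ} (h0 : 0 < t) (h1 : t < 1) (z : ℂ) (hz : ‖z‖ = 1) :
    1 - (t : ℂ) * z ≠ 0 := by
  intro h
  have h2 : (1 : ℂ) = t * z := sub_eq_zero.mp h
  have h3 : ‖(1 : ℂ)‖ = ‖(t : ℂ) * z‖ := by rw [← h2]
  rw [norm_one, norm_mul, hz, mul_one, Complex.norm_real, Real.norm_of_nonneg h0.le] at h3
  linarith

theorem az_norm_exp (θ : ℝ) : ‖exp (θ * I)‖ = 1 := Complex.norm_exp_ofReal_mul_I θ

theorem az_inv {s : ℝ} (h1 : 1 < s) (θ : ℝ) :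
    ‖1 - (s : ℂ) * exp (θ * I)‖ = s * ‖1 - ((s⁻¹ : ℝ) : ℂ) * exp ((-θ : ℝ) * I)‖ := by
  have hs : (s : ℂ) ≠ 0 := by exact_mod_cast (by linarith : s ≠ 0)
  have e : exp ((-θ : ℝ) * I) = (exp (θ * I))⁻¹ := by
    rw [← Complex.exp_neg]
    push_cast
    ring_nf
  have h : 1 - (s : ℂ) * exp (θ * I) =
      -((s : ℂ) * exp (θ * I)) * (1 - ((s⁻¹ : ℝ) : ℂ) * exp ((-θ : ℝ) * I)) := by
    rw [e]
    have h2 : exp (θ * I) ≠ 0 := Complex.exp_ne_zero _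
    push_cast
    field_simp
    ring
  rw [h, norm_mul, norm_neg, norm_mul, az_norm_exp, mul_one, Complex.norm_real,
    Real.norm_of_nonneg (by linarith : (0 : ℝ) ≤ s)]

theorem az_W_inv {L : ℕ} (hL : 0 < L) (α : ℝ) {s : ℝ} (h1 : 1 < s) (θ : ℝ) :
    W L α (s * exp (θ * I)) =
      (s ^ L) ^ (-(2 * α)) * W L α ((s⁻¹ : ℝ) * exp ((-θ : ℝ) * I)) := by
  unfold W
  have hsL : 1 < s ^ L := one_lt_pow₀ h1 hL.ne'
  have e1 : ((s : ℂ) * exp (θ * I)) ^ L = ((s ^ L : ℝ) : ℂ) * exp ((L * θ : ℝ) * I) := by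
    rw [az_expL]
    push_cast
    rfl
  have e2 : (((s⁻¹ : ℝ) : ℂ) * exp ((-θ : ℝ) * I)) ^ L =
      (((s ^ L)⁻¹ : ℝ) : ℂ) * exp ((-(L * θ) : ℝ) * I) := by
    rw [az_expL]
    push_cast
    rw [inv_pow]
    congr 2
    ring
  rw [e1, e2, az_inv hsL, Real.mul_rpow (by positivity) (norm_nonneg _)]

theorem az_W_cont {L : ℕ} (hL : 0 < L) (α : ℝ) {t : ℝ} (h0 : 0 < t) (h1 : t < 1) :
    Continuous fun θ : ℝ => W L α ((t : ℂ) * exp (θ * I)) := by
  unfold W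
  refine Continuous.rpow_const (by fun_prop) fun θ => Or.inl ?_
  rw [az_expL, norm_ne_zero_iff]
  have h3 : (t : ℂ) ^ L = ((t ^ L : ℝ) : ℂ) := by push_cast; rfl
  rw [h3]
  refine az_ne (by positivity) (pow_lt_one₀ h0.le h1 hL.ne') _ ?_
  have h4 : (L : ℂ) * θ * I = ((L * θ : ℝ) : ℂ) * I := by push_cast; rfl
  rw [h4, az_norm_exp]

theorem az_log_cont {t : ℝ} (h0 : 0 < t) (h1 : t < 1) :
    Continuous fun θ : ℝ => Real.log ‖1 - (t : ℂ) * exp (θ * I)‖ := by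
  refine Continuous.log (by fun_prop) fun θ => ?_
  rw [norm_ne_zero_iff]
  exact az_ne h0 h1 _ (az_norm_exp θ)

theorem ang_out {L : ℕ} (hL : 0 < L) {α : ℝ} (hα : 0 ≤ α) {δ : ℤ} (hδ : ¬ (L : ℤ) ∣ δ) {s : ℝ}
    (h1 : 1 < s) :
    ∃ c : ℝ, 0 < c ∧ ∫ θ in (-Real.pi)..Real.pi,
      ((Real.log ‖1 - s * exp (θ * I)‖ * W L α (s * exp (θ * I)) : ℝ) : ℂ) * exp (δ * θ * I) =
        -(c : ℂ) := by
  have hs0 : 0 < s := by linarith
  have ht0 : 0 < s⁻¹ := inv_pos.mpr hs0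
  have ht1 : s⁻¹ < 1 := inv_lt_one_of_one_lt₀ h1
  have hδ0 : -δ ≠ 0 := by
    intro h
    apply hδ
    rw [neg_eq_zero.mp h]
    exact dvd_zero _
  obtain ⟨c, hc, hcI⟩ := ang_neg hL hα hδ0 ht0 ht1
  have hA : 0 < (s ^ L) ^ (-(2 * α)) := Real.rpow_pos_of_pos (by positivity) _
  refine ⟨(s ^ L) ^ (-(2 * α)) * c, by positivity, ?_⟩
  have hsplit : ∀ θ : ℝ,
      ((Real.log ‖1 - s * exp (θ * I)‖ * W L α (s * exp (θ * I)) : ℝ) : ℂ) * exp (δ * θ * I) =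
      (Real.log s : ℂ) * ((W L α (s * exp (θ * I)) : ℂ) * exp (δ * θ * I)) +
      (((s ^ L) ^ (-(2 * α)) : ℝ) : ℂ) *
        (((Real.log ‖1 - ((s⁻¹ : ℝ) : ℂ) * exp ((-θ : ℝ) * I)‖ *
          W L α (((s⁻¹ : ℝ) : ℂ) * exp ((-θ : ℝ) * I)) : ℝ) : ℂ) * exp (δ * θ * I)) := by
    intro θ
    have hne : ‖1 - ((s⁻¹ : ℝ) : ℂ) * exp ((-θ : ℝ) * I)‖ ≠ 0 := by
      rw [norm_ne_zero_iff]
      exact az_ne ht0 ht1 _ (az_norm_exp (-θ))
    rw [az_inv h1 θ, Real.log_mul hs0.ne' hne, az_W_inv hL α h1 θ]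
    push_cast
    ring
  have hWc := az_W_cont hL α ht0 ht1
  have hlc := az_log_cont ht0 ht1
  have hc1 : Continuous fun θ : ℝ => (W L α (s * exp (θ * I)) : ℂ) * exp (δ * θ * I) := by
    have : (fun θ : ℝ => (W L α (s * exp (θ * I)) : ℂ) * exp (δ * θ * I)) =
        fun θ : ℝ => (((s ^ L) ^ (-(2 * α)) *
          (fun η : ℝ => W L α (((s⁻¹ : ℝ) : ℂ) * exp (η * I))) (-θ) : ℝ) : ℂ) *
            exp (δ * θ * I) := by
      funext θ
      rw [az_W_inv hL α h1 θ]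
    rw [this]
    refine Continuous.mul ?_ (by fun_prop)
    exact Complex.continuous_ofReal.comp (continuous_const.mul (hWc.comp continuous_neg))
  have hc2 : Continuous fun θ : ℝ =>
      (((Real.log ‖1 - ((s⁻¹ : ℝ) : ℂ) * exp ((-θ : ℝ) * I)‖ *
          W L α (((s⁻¹ : ℝ) : ℂ) * exp ((-θ : ℝ) * I)) : ℝ) : ℂ) * exp (δ * θ * I)) := by
    refine Continuous.mul ?_ (by fun_prop)
    exact Complex.continuous_ofReal.comp
      ((hlc.comp continuous_neg).mul (hWc.comp continuous_neg))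
  simp only [hsplit]
  have i1 : IntervalIntegrable (fun θ : ℝ => (Real.log s : ℂ) *
      ((W L α (s * exp (θ * I)) : ℂ) * exp (δ * θ * I))) volume (-Real.pi) Real.pi :=
    (continuous_const.mul hc1).intervalIntegrable _ _
  have i2 : IntervalIntegrable (fun θ : ℝ => (((s ^ L) ^ (-(2 * α)) : ℝ) : ℂ) *
        (((Real.log ‖1 - ((s⁻¹ : ℝ) : ℂ) * exp ((-θ : ℝ) * I)‖ *
          W L α (((s⁻¹ : ℝ) : ℂ) * exp ((-θ : ℝ) * I)) : ℝ) : ℂ) * exp (δ * θ * I)))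
      volume (-Real.pi) Real.pi :=
    (continuous_const.mul hc2).intervalIntegrable _ _
  rw [intervalIntegral.integral_add i1 i2, intervalIntegral.integral_const_mul, intervalIntegral.integral_const_mul,
    ang_zero hL α hδ s, mul_zero, zero_add]
  have hsub : ∫ θ in (-Real.pi)..Real.pi,
      (((Real.log ‖1 - ((s⁻¹ : ℝ) : ℂ) * exp ((-θ : ℝ) * I)‖ *
          W L α (((s⁻¹ : ℝ) : ℂ) * exp ((-θ : ℝ) * I)) : ℝ) : ℂ) * exp (δ * θ * I)) =
      ∫ θ in (-Real.pi)..Real.pi,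
      (((Real.log ‖1 - ((s⁻¹ : ℝ) : ℂ) * exp (θ * I)‖ *
          W L α (((s⁻¹ : ℝ) : ℂ) * exp (θ * I)) : ℝ) : ℂ) * exp (((-δ : ℤ) : ℂ) * θ * I)) := by
    have h := intervalIntegral.integral_comp_neg (a := -Real.pi) (b := Real.pi)
      (f := fun θ : ℝ => (((Real.log ‖1 - ((s⁻¹ : ℝ) : ℂ) * exp (θ * I)‖ *
          W L α (((s⁻¹ : ℝ) : ℂ) * exp (θ * I)) : ℝ) : ℂ) * exp (((-δ : ℤ) : ℂ) * θ * I)))
    rw [neg_neg] at h
    rw [← h]
    congr 1
    funext θ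
    congr 2
    push_cast
    ring
  rw [hsub, hcI]
  push_cast
  ring

end Pool.Agent.Helper63.HF
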