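import Pool.Agent.Helper63.HF.Base

/-! Module REGC: the regulators of the correspondences. -/

noncomputable section

namespace Pool.Agent.Helper63.HF

open Complex MeasureTheory ComplexConjugate Finset

theorem REGC_fib {r L : ℕ} (hr : 0 < r) (y : ℂ) {h : ℂ → ℂ} {v : ℂ}
    (hh : ∀ x, x ^ r = 1 - y ^ L → h x = v) : ((fib r L y).map h).sum = r * v := by
  have hcard : Multiset.card (fib r L y) = r := by
    unfold fib Polynomial.nthRoots
    have hd : (Polynomial.X ^ r - Polynomial.C (1 - y ^ L) : Polynomial ℂ).natDegree = r :=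
      Polynomial.natDegree_X_pow_sub_C
    rw [← IsAlgClosed.splits _ |>.natDegree_eq_card_roots, hd]
  have h1 : (fib r L y).map h = (fib r L y).map (fun _ => v) := by
    refine Multiset.map_congr rfl (fun x hx => hh x ?_)
    unfold fib at hx
    exact (Polynomial.mem_nthRoots hr).1 hx
  rw [h1, Multiset.map_const', hcard, Multiset.sum_replicate, nsmul_eq_mul]

theorem REGC_W {r L p : ℕ} (hr : 0 < r) (hp : p < r) {x y : ℂ} (hx : x ^ r = 1 - y ^ L) :
    ((x ^ (r - p) * conj x ^ (r - p))⁻¹ : ℂ) = (W L (1 - (p : ℝ) / r) y : ℂ) := by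
  have h1 : x ^ (r - p) * conj x ^ (r - p) = ((‖x‖ ^ (2 * (r - p)) : ℝ) : ℂ) := by
    rw [← mul_pow, Complex.mul_conj, Complex.normSq_eq_norm_sq, ← Complex.ofReal_pow, ← pow_mul]
  have h2 : W L (1 - (p : ℝ) / r) y = (‖x‖ ^ (2 * (r - p)))⁻¹ := by
    unfold W
    rw [← hx, norm_pow]
    have hr' : (r : ℝ) ≠ 0 := by exact_mod_cast hr.ne'
    have e1 : ((2 * (r - p) : ℕ) : ℝ) = r * (2 * (1 - (p : ℝ) / r)) := by
      rw [Nat.cast_mul, Nat.cast_sub hp.le]
      field_simp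
      ring
    rw [← Real.rpow_natCast ‖x‖ (2 * (r - p)), e1, Real.rpow_mul (norm_nonneg _),
      Real.rpow_natCast, Real.rpow_neg (by positivity)]
  rw [h1, h2, Complex.ofReal_inv]

theorem REGC_conj {n : ℕ} (hn : 0 < n) {z : ℂ} (hz : z ^ n = 1) : z * conj z = 1 := by
  rw [Complex.mul_conj, Complex.normSq_eq_norm_sq, Complex.norm_eq_one_of_pow_eq_one hz hn.ne']
  simp

/-- The pullback forms of two power morphisms, multiplied. -/
theorem REGC_form {r L m m' p q q' : ℕ} (hr : 0 < r) (hp : p < r) (hm : 0 < m) (hm' : 0 < m')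
    (hq : 0 < q) (hq' : 0 < q') {ζ η x y : ℂ} (hζ : ζ ^ r = 1)
    (hx : x ^ r = 1 - y ^ L) :
    ((1 * y ^ m) ^ (q - 1) * (1 * m * y ^ (m - 1)) / (1 * x) ^ (r - p)) *
      conj ((η * y ^ m') ^ (q' - 1) * (η * m' * y ^ (m' - 1)) / (ζ * x) ^ (r - p)) =
    m * m' * conj (ζ ^ p * η ^ q') * kern L (1 - (p : ℝ) / r) (m * q) (m' * q') y := by
  have e1 : (1 * y ^ m) ^ (q - 1) * (1 * m * y ^ (m - 1)) = m * y ^ (m * q - 1) := by
    rw [one_mul, one_mul, ← pow_mul]
    have : m * q - 1 = m * (q - 1) + (m - 1) := by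
      obtain ⟨k, rfl⟩ : ∃ k, q = k + 1 := ⟨q - 1, by omega⟩
      rw [Nat.add_sub_cancel, Nat.mul_add]; omega
    rw [this, pow_add]; ring
  have e2 : (η * y ^ m') ^ (q' - 1) * (η * m' * y ^ (m' - 1)) = m' * η ^ q' * y ^ (m' * q' - 1) := by
    rw [mul_pow, ← pow_mul]
    have h1 : m' * q' - 1 = m' * (q' - 1) + (m' - 1) := by
      obtain ⟨k, rfl⟩ : ∃ k, q' = k + 1 := ⟨q' - 1, by omega⟩
      rw [Nat.add_sub_cancel, Nat.mul_add]; omega
    have h2 : η ^ q' = η ^ (q' - 1) * η := by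
      rw [← pow_succ]; congr 1; omega
    rw [h1, pow_add, h2]; ring
  have hζ1 : conj ζ ^ r = 1 := by rw [← map_pow, hζ, map_one]
  have e3 : (conj ζ ^ (r - p))⁻¹ = conj ζ ^ p := by
    apply inv_eq_of_mul_eq_one_right
    rw [← pow_add, show r - p + p = r by omega, hζ1]
  rw [e1, e2, one_mul, map_div₀, map_mul, map_mul, map_natCast, map_pow, map_pow, map_pow, map_mul,
    mul_pow, kern, ← REGC_W hr hp hx]
  rw [map_mul, map_pow, map_pow, ← e3, div_eq_mul_inv, div_eq_mul_inv, mul_inv, mul_inv]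
  ring

theorem corr_fst {r N M : ℕ} (hr : 2 ≤ r) (hN : 0 < N) (hM : 0 < M) {ζ η : ℂ} (hζ : ζ ^ r = 1)
    (hη : η ^ M = 1) (f : Fn) (i : Idx r N M) :
    (corr hN hM ζ η hζ hη f).vec.1 i = r * M * N * conj (ζ ^ (i.1.1 : ℕ) * η ^ (i.1.2.2 : ℕ)) *
      II f.lg (N * M) (1 - ((i.1.1 : ℕ) : ℝ) / r) (M * (i.1.2.1 : ℕ)) (N * (i.1.2.2 : ℕ)) := by
  obtain ⟨⟨p, q, q'⟩, hi⟩ := i
  simp only at hi ⊢
  show (corr hN hM ζ η hζ hη f).int _ = _
  unfold Term.int II
  rw [← integral_const_mul]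
  refine integral_congr_ae (Filter.Eventually.of_forall fun y => ?_)
  simp only [corr, Mor.form]
  rw [REGC_fib (by omega : 0 < r) y (fun x hx => REGC_form (by omega) p.2 hM hN hi.2.1 hi.2.2.1
    hζ hx)]
  ring

theorem corr_snd {r N M : ℕ} (hr : 2 ≤ r) (hN : 0 < N) (hM : 0 < M) {ζ η : ℂ} (hζ : ζ ^ r = 1)
    (hη : η ^ M = 1) (f : Fn) :
    (corr hN hM ζ η hζ hη f).vec.2.1 = (r * M ^ 2 * II f.lg (N * M) (1 - 1 / r) M M).re := by
  show ((corr hN hM ζ η hζ hη f).int _).re = _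
  congr 1
  unfold Term.int II
  rw [← integral_const_mul]
  refine integral_congr_ae (Filter.Eventually.of_forall fun y => ?_)
  simp only [corr, Mor.form]
  have key : ∀ x, x ^ r = 1 - y ^ (N * M) →
      ((1 * y ^ M) ^ (1 - 1) * (1 * M * y ^ (M - 1)) / (1 * x) ^ (r - 1)) *
      conj ((1 * y ^ M) ^ (1 - 1) * (1 * M * y ^ (M - 1)) / (1 * x) ^ (r - 1)) =
      M ^ 2 * kern (N * M) (1 - 1 / r) M M y := by
    intro x hx
    have h1 := REGC_form (r := r) (L := N * M) (m := M) (m' := M) (p := 1) (q := 1) (q' := 1)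
      (ζ := 1) (η := 1) (x := x) (y := y) (by omega) (by omega) hM hM one_pos one_pos (one_pow _) hx
    rw [h1]
    simp only [one_pow, mul_one, map_one, Nat.cast_one]
    ring
  rw [REGC_fib (by omega : 0 < r) y key]
  ring

theorem corr_trd {r N M : ℕ} (hr : 2 ≤ r) (hN : 0 < N) (hM : 0 < M) {ζ η : ℂ} (hζ : ζ ^ r = 1)
    (hη : η ^ M = 1) (f : Fn) :
    (corr hN hM ζ η hζ hη f).vec.2.2 = (r * N ^ 2 * II f.lg (N * M) (1 - 1 / r) N N).re := by
  show ((corr hN hM ζ η hζ hη f).int _).re = _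
  congr 1
  unfold Term.int II
  rw [← integral_const_mul]
  refine integral_congr_ae (Filter.Eventually.of_forall fun y => ?_)
  simp only [corr, Mor.form]
  have key : ∀ x, x ^ r = 1 - y ^ (N * M) →
      ((η * y ^ N) ^ (1 - 1) * (η * N * y ^ (N - 1)) / (ζ * x) ^ (r - 1)) *
      conj ((η * y ^ N) ^ (1 - 1) * (η * N * y ^ (N - 1)) / (ζ * x) ^ (r - 1)) =
      N ^ 2 * kern (N * M) (1 - 1 / r) N N y := by
    intro x hx
    have h1 := REGC_form (r := r) (L := N * M) (m := N) (m' := N) (p := 1) (q := 1) (q' := 1)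
      (ζ := 1) (η := 1) (x := x) (y := y) (by omega) (by omega) hN hN one_pos one_pos (one_pow _) hx
    have h2 : ((η * y ^ N) ^ (1 - 1) * (η * N * y ^ (N - 1)) / (ζ * x) ^ (r - 1)) =
        (η / ζ ^ (r - 1)) * ((1 * y ^ N) ^ (1 - 1) * (1 * N * y ^ (N - 1)) / (1 * x) ^ (r - 1)) := by
      simp only [Nat.sub_self, pow_zero, one_mul, mul_pow, div_eq_mul_inv, mul_inv]
      ring
    have h3 : (η / ζ ^ (r - 1)) * conj (η / ζ ^ (r - 1)) = 1 := by
      rw [map_div₀, map_pow, div_mul_div_comm, REGC_conj hM hη, ← mul_pow,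
        REGC_conj (by omega : 0 < r) hζ]
      simp
    rw [h2, map_mul, mul_mul_mul_comm, h3, one_mul, h1]
    simp only [one_pow, mul_one, map_one, Nat.cast_one]
    ring
  rw [REGC_fib (by omega : 0 < r) y key]
  ring

end Pool.Agent.Helper63.HF
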