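import Pool.Agent.Helper63.HF.FIB
import Pool.Agent.Helper63.HF.REGC

/-! Module BAS: the cycles and their regulators. -/

noncomputable section

namespace Pool.Agent.Helper63.HF

open Complex MeasureTheory ComplexConjugate Finset

theorem BAS_bdry {r N M : ℕ} (hr : 0 < r) (hN : 0 < N) (hM : 0 < M) {ζ η : ℂ} (hζ : ζ ^ r = 1)
    (hη : η ^ M = 1) {f : Fn} (hf : ∀ ρ ∈ f.n.support, ρ ^ (N * M) = 1) :
    (corr (r := r) hN hM ζ η hζ hη f).bdry = f.n.sum fun ρ k =>
      ((fib r (N * M) ρ).map fun _ =>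
        Finsupp.single (((0 : ℂ), ρ ^ M), ((0 : ℂ), η * ρ ^ N)) k).sum := by
  unfold Term.bdry corr
  simp only [Mor.map]
  unfold Finsupp.sum
  refine Finset.sum_congr rfl (fun ρ hρ => ?_)
  refine congrArg Multiset.sum (Multiset.map_congr rfl (fun x hx => ?_))
  have h1 : x ^ r = 1 - ρ ^ (N * M) := (Polynomial.mem_nthRoots hr).1 hx
  rw [hf ρ hρ, sub_self] at h1
  have hx0 : x = 0 := pow_eq_zero_iff hr.ne' |>.1 h1
  subst hx0
  simp

theorem bas_cycle {r N M : ℕ} (hr : 0 < r) (hN : 0 < N) (hM : 0 < M) {ζ η : ℂ} (hζ : ζ ^ r = 1)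
    (hη : η ^ M = 1) {f : Fn} (hf : ∀ ρ ∈ f.n.support, ρ ^ (N * M) = 1) :
    IsCycle (bas hN hM ζ η hζ hη f) := by
  unfold IsCycle bas
  have hf' : ∀ ρ ∈ f.inv.n.support, ρ ^ (N * M) = 1 := by
    intro ρ hρ
    apply hf
    have : f.inv.n = -f.n := rfl
    rw [this, Finsupp.support_neg] at hρ
    exact hρ
  simp only [List.map_cons, List.map_nil, List.sum_cons, List.sum_nil, add_zero]
  rw [BAS_bdry hr hN hM hζ hη hf, BAS_bdry hr hN hM (one_pow _) hη hf']
  have h1 : f.inv.n = -f.n := rfl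
  rw [h1, Finsupp.sum_neg_index]
  · unfold Finsupp.sum
    rw [← Finset.sum_add_distrib]
    refine Finset.sum_eq_zero (fun ρ _ => ?_)
    rw [← Multiset.sum_map_add]
    refine Multiset.sum_eq_zero (fun z hz => ?_)
    obtain ⟨x, _, rfl⟩ := Multiset.mem_map.1 hz
    rw [← Finsupp.single_add, add_neg_cancel, Finsupp.single_zero]
  · intro ρ
    refine Multiset.sum_eq_zero (fun z hz => ?_)
    obtain ⟨x, _, rfl⟩ := Multiset.mem_map.1 hz
    rw [Finsupp.single_zero]

theorem BAS_II_inv (f : Fn) (L : ℕ) (α : ℝ) (K K' : ℕ) :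
    II f.inv.lg L α K K' = -II f.lg L α K K' := by
  unfold II
  rw [← integral_neg]
  refine integral_congr_ae (Filter.Eventually.of_forall fun y => ?_)
  simp only [Fn.lg_inv]
  push_cast
  ring

theorem bas_vec {r N M : ℕ} (hr : 2 ≤ r) (hN : 0 < N) (hM : 0 < M) {ζ η : ℂ} (hζ : ζ ^ r = 1)
    (hη : η ^ M = 1) (f : Fn) :
    vec (bas hN hM ζ η hζ hη f) = (fun i => r * M * N * conj (η ^ (i.1.2.2 : ℕ)) *
      (conj (ζ ^ (i.1.1 : ℕ)) - 1) *
      II f.lg (N * M) (1 - ((i.1.1 : ℕ) : ℝ) / r) (M * (i.1.2.1 : ℕ)) (N * (i.1.2.2 : ℕ)), 0, 0) := by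
  unfold vec bas
  simp only [List.map_cons, List.map_nil, List.sum_cons, List.sum_nil, add_zero]
  refine Prod.ext ?_ (Prod.ext ?_ ?_)
  · funext i
    rw [Prod.fst_add, Pi.add_apply, corr_fst hr, corr_fst hr, BAS_II_inv]
    simp only [one_pow, one_mul, map_mul]
    ring
  · rw [Prod.snd_add, Prod.fst_add, corr_snd hr, corr_snd hr, BAS_II_inv]
    simp
  · rw [Prod.snd_add, Prod.snd_add, corr_trd hr, corr_trd hr, BAS_II_inv]
    simp

theorem fst_cycle {r N M : ℕ} (hN : 0 < N) (hM : 0 < M) :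
    IsCycle [(fst hN hM : Term r N M)] := by
  unfold IsCycle
  simp only [List.map_cons, List.map_nil, List.sum_cons, List.sum_nil, add_zero]
  unfold Term.bdry
  have : (fst hN hM : Term r N M).f.n = 0 := rfl
  rw [this, Finsupp.sum_zero_index]

theorem snd_cycle {r N M : ℕ} (hN : 0 < N) (hM : 0 < M) :
    IsCycle [(snd hN hM : Term r N M)] := by
  unfold IsCycle
  simp only [List.map_cons, List.map_nil, List.sum_cons, List.sum_nil, add_zero]
  unfold Term.bdry
  have : (snd hN hM : Term r N M).f.n = 0 := rfl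
  rw [this, Finsupp.sum_zero_index]

/-- The square of the first form on the curve. -/
theorem BAS_form {r N : ℕ} (hr : 2 ≤ r) (y : ℂ) (x : ℂ) (hx : x ^ r = 1 - y ^ N) :
    ((1 * y ^ 1) ^ (1 - 1) * (1 * ((1 : ℕ) : ℂ) * y ^ (1 - 1)) / (1 * x) ^ (r - 1)) *
      conj ((1 * y ^ 1) ^ (1 - 1) * (1 * ((1 : ℕ) : ℂ) * y ^ (1 - 1)) / (1 * x) ^ (r - 1)) =
      kern N (1 - 1 / r) 1 1 y := by
  have h1 := REGC_form (r := r) (L := N) (m := 1) (m' := 1) (p := 1) (q := 1) (q' := 1)
    (ζ := 1) (η := 1) (x := x) (y := y) (by omega) (by omega) one_pos one_pos one_pos one_pos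
    (one_pow _) hx
  rw [h1]
  simp only [one_pow, mul_one, map_one, Nat.cast_one, one_mul]

theorem BAS_map_zero {s : Multiset ℂ} {h : ℂ → ℂ} (hh : ∀ x ∈ s, h x = 0) : (s.map h).sum = 0 := by
  refine Multiset.sum_eq_zero (fun z hz => ?_)
  obtain ⟨x, hx, rfl⟩ := Multiset.mem_map.1 hz
  exact hh x hx

theorem fst_vec {r N M : ℕ} (hr : 2 ≤ r) (hN : 0 < N) (hM : 0 < M) :
    vec [(fst hN hM : Term r N M)] = (0, (r * II (fun _ => 1) N (1 - 1 / r) 1 1).re, 0) := by
  unfold vec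
  simp only [List.map_cons, List.map_nil, List.sum_cons, List.sum_nil, add_zero]
  refine Prod.ext ?_ (Prod.ext ?_ ?_)
  · funext i
    simp [Term.vec, Term.int, fst, Mor.form]
  · show ((fst hN hM : Term r N M).int _).re = _
    congr 1
    unfold Term.int II
    rw [← integral_const_mul]
    refine integral_congr_ae (Filter.Eventually.of_forall fun y => ?_)
    simp only [fst, Mor.form, Fn.lg_e]
    rw [REGC_fib (by omega : 0 < r) y (BAS_form hr y)]
    ring
  · show ((fst hN hM : Term r N M).int _).re = _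
    simp [Term.int, fst, Mor.form]

theorem snd_vec {r N M : ℕ} (hr : 2 ≤ r) (hN : 0 < N) (hM : 0 < M) :
    vec [(snd hN hM : Term r N M)] = (0, 0, (r * II (fun _ => 1) M (1 - 1 / r) 1 1).re) := by
  unfold vec
  simp only [List.map_cons, List.map_nil, List.sum_cons, List.sum_nil, add_zero]
  refine Prod.ext ?_ (Prod.ext ?_ ?_)
  · funext i
    simp [Term.vec, Term.int, snd, Mor.form]
  · show ((snd hN hM : Term r N M).int _).re = _
    simp [Term.int, snd, Mor.form]
  · show ((snd hN hM : Term r N M).int _).re = _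
    congr 1
    unfold Term.int II
    rw [← integral_const_mul]
    refine integral_congr_ae (Filter.Eventually.of_forall fun y => ?_)
    simp only [snd, Mor.form, Fn.lg_e]
    rw [REGC_fib (by omega : 0 < r) y (BAS_form hr y)]
    ring

end Pool.Agent.Helper63.HF
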