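import Pool.Agent.Helper63.HF.Defs

/-! Auxiliary definitions for the proof. -/

noncomputable section

namespace Pool.Agent.Helper63.HF

open Complex MeasureTheory ComplexConjugate

/-- the weight `|1 - y ^ L| ^ (-2 α)` -/
def W (L : ℕ) (α : ℝ) (y : ℂ) : ℝ := ‖1 - y ^ L‖ ^ (-(2 * α))

/-- the kernel `y ^ (K - 1) conj y ^ (K' - 1) |1 - y ^ L| ^ (-2 α)` -/
def kern (L : ℕ) (α : ℝ) (K K' : ℕ) (y : ℂ) : ℂ :=
  y ^ (K - 1) * (conj y) ^ (K' - 1) * (W L α y : ℂ)

/-- the integral of `g` against the kernel -/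
def II (g : ℂ → ℝ) (L : ℕ) (α : ℝ) (K K' : ℕ) : ℂ := ∫ y : ℂ, (g y : ℂ) * kern L α K K' y

/-- `log |y - ρ|` -/
def lgr (ρ : ℂ) (y : ℂ) : ℝ := Real.log ‖y - ρ‖

/-- the constant function `exp 1` -/
def Fn.e : Fn := ⟨Complex.exp 1, 0, Complex.exp_ne_zero _, by simp⟩

/-- the function `(y - ρ) / (y - 1)` -/
def Fn.lin (ρ : ℂ) : Fn where
  c := 1
  n := Finsupp.single ρ 1 - Finsupp.single 1 1
  ne := one_ne_zero
  deg := by
    rw [Finsupp.sum_sub_index (by intros; rfl)]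
    simp

/-- the inverse function -/
def Fn.inv (f : Fn) : Fn where
  c := f.c⁻¹
  n := -f.n
  ne := inv_ne_zero f.ne
  deg := by
    have h := f.deg
    rw [Finsupp.sum_neg_index (by simp)]
    simp only [Finsupp.sum, Finset.sum_neg_distrib, neg_eq_zero] at h ⊢
    exact h

/-- the correspondence `(x, y) ↦ ((x, y ^ M), (ζ x, η y ^ N))` with the function `f` -/
def corr {r N M : ℕ} (hN : 0 < N) (hM : 0 < M) (ζ η : ℂ) (hζ : ζ ^ r = 1) (hη : η ^ M = 1)
    (f : Fn) : Term r N M where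
  L := N * M
  pos := Nat.mul_pos hN hM
  φ := .pow M 1 1 (Nat.mul_comm M N) (one_pow _) (one_pow _)
  ψ := .pow N ζ η rfl hζ hη
  f := f

/-- the difference of two correspondences with the same function -/
def bas {r N M : ℕ} (hN : 0 < N) (hM : 0 < M) (ζ η : ℂ) (hζ : ζ ^ r = 1) (hη : η ^ M = 1)
    (f : Fn) : List (Term r N M) :=
  [corr hN hM ζ η hζ hη f, corr hN hM 1 η (one_pow _) hη f.inv]

/-- the first fibre `C_N × {(1, 0)}` with the constant `exp 1` -/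
def fst {r N M : ℕ} (hN : 0 < N) (hM : 0 < M) : Term r N M where
  L := N
  pos := hN
  φ := .pow 1 1 1 (Nat.one_mul N) (one_pow _) (one_pow _)
  ψ := .pt 1 0 (by rw [zero_pow hM.ne']; simp)
  f := Fn.e

/-- the second fibre `{(1, 0)} × C_M` with the constant `exp 1` -/
def snd {r N M : ℕ} (hN : 0 < N) (hM : 0 < M) : Term r N M where
  L := M
  pos := hM
  φ := .pt 1 0 (by rw [zero_pow hN.ne']; simp)
  ψ := .pow 1 1 1 (Nat.one_mul M) (one_pow _) (one_pow _)
  f := Fn.e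

/-- the root of unity `exp (2 π i j / n)` -/
def ru (n j : ℕ) : ℂ := Complex.exp (2 * Real.pi * I / n) ^ j

theorem ru_pow {n : ℕ} (hn : 0 < n) (j : ℕ) : ru n j ^ n = 1 := by
  rw [ru, ← pow_mul, Nat.mul_comm j n, pow_mul, (Complex.isPrimitiveRoot_exp n hn.ne').pow_eq_one,
    one_pow]

end Pool.Agent.Helper63.HF
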