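import Mathlib

/-! Elements of `CH²(X, 1)` on a product of two superelliptic curves, their boundaries and
their real regulators.

`C_N` is the affine curve `x ^ r = 1 - y ^ N`. -/

noncomputable section

namespace Pool.Agent.Helper63.HF

open Complex MeasureTheory ComplexConjugate

/-- a rational function `f = c ∏ (y - ρ) ^ (n ρ)` of degree `0` -/
structure Fn where
  c : ℂ
  n : ℂ →₀ ℤ
  ne : c ≠ 0
  deg : (n.sum fun _ k => k) = 0

/-- `log |f y|` -/
def Fn.lg (f : Fn) (y : ℂ) : ℝ :=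
  Real.log ‖f.c‖ + f.n.sum fun ρ k => (k : ℝ) * Real.log ‖y - ρ‖

/-- the `r` solutions `x` of `x ^ r = 1 - y ^ L`, with multiplicities -/
def fib (r L : ℕ) (y : ℂ) : Multiset ℂ := Polynomial.nthRoots r (1 - y ^ L)

/-- a morphism from the curve `x ^ r = 1 - y ^ L` to the curve `x ^ r = 1 - y ^ N`: either
`(x, y) ↦ (a x, b y ^ m)` with `m N = L`, `a ^ r = 1` and `b ^ N = 1`, or constant -/
inductive Mor (r L N : ℕ) : Type
  | pow (m : ℕ) (a b : ℂ) (hm : m * N = L) (ha : a ^ r = 1) (hb : b ^ N = 1)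
  | pt (x₀ y₀ : ℂ) (h : x₀ ^ r = 1 - y₀ ^ N)

/-- the morphism on points -/
def Mor.map {r L N : ℕ} : Mor r L N → ℂ → ℂ → ℂ × ℂ
  | .pow m a b _ _ _, x, y => (a * x, b * y ^ m)
  | .pt x₀ y₀ _, _, _ => (x₀, y₀)

/-- the function `h` with `φ^* ω = h dy`, where `ω = x ^ (p - r) y ^ (q - 1) dy` -/
def Mor.form {r L N : ℕ} (p q : ℕ) : Mor r L N → ℂ → ℂ → ℂ
  | .pow m a b _ _ _, x, y => (b * y ^ m) ^ (q - 1) * (b * m * y ^ (m - 1)) / (a * x) ^ (r - p)
  | .pt _ _ _, _, _ => 0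

/-- the push-forward to `C_N × C_M` of the function `f` on the curve `x ^ r = 1 - y ^ L` along
the morphism `(φ, ψ)` -/
structure Term (r N M : ℕ) where
  L : ℕ
  pos : 0 < L
  φ : Mor r L N
  ψ : Mor r L M
  f : Fn

/-- the image of `div f` in the `0`-cycles of `C_N × C_M` -/
def Term.bdry {r N M : ℕ} (t : Term r N M) : (ℂ × ℂ) × (ℂ × ℂ) →₀ ℤ :=
  t.f.n.sum fun ρ k => ((fib r t.L ρ).map fun x => Finsupp.single (t.φ.map x ρ, t.ψ.map x ρ) k).sum

/-- the integral of `log |f| h (i/2) dy ∧ dȳ` over the curve `x ^ r = 1 - y ^ L` -/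
def Term.int {r N M : ℕ} (t : Term r N M) (h : ℂ → ℂ → ℂ) : ℂ :=
  ∫ y : ℂ, (t.f.lg y : ℂ) * ((fib r t.L y).map fun x => h x y).sum

/-- the indices `(p, q, q')` with `0 < p, q, q'`, `p / r + q / N < 1` and `p / r + q' / M < 1` -/
abbrev Idx (r N M : ℕ) : Type :=
  {i : Fin r × Fin N × Fin M // 0 < (i.1 : ℕ) ∧ 0 < (i.2.1 : ℕ) ∧ 0 < (i.2.2 : ℕ) ∧
    (i.1 : ℕ) * N + (i.2.1 : ℕ) * r < r * N ∧ (i.1 : ℕ) * M + (i.2.2 : ℕ) * r < r * M}

/-- the regulators of a term: the integrals of `log |f|` against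
`ω_{p,q} ⊗ conj ω'_{p,q'}`, `|ω_{1,1}|²` on the first and on the second factor -/
def Term.vec {r N M : ℕ} (t : Term r N M) : (Idx r N M → ℂ) × ℝ × ℝ :=
  (fun i => t.int fun x y =>
      t.φ.form i.1.1 i.1.2.1 x y * conj (t.ψ.form i.1.1 i.1.2.2 x y),
    (t.int fun x y => t.φ.form 1 1 x y * conj (t.φ.form 1 1 x y)).re,
    (t.int fun x y => t.ψ.form 1 1 x y * conj (t.ψ.form 1 1 x y)).re)

/-- the formal sum of the terms of the list has boundary `0` -/
def IsCycle {r N M : ℕ} (ξ : List (Term r N M)) : Prop := (ξ.map Term.bdry).sum = 0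

/-- the regulators of the formal sum of the terms of the list -/
def vec {r N M : ℕ} (ξ : List (Term r N M)) : (Idx r N M → ℂ) × ℝ × ℝ := (ξ.map Term.vec).sum

end Pool.Agent.Helper63.HF
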