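import Pool.Agent.Helper63.HF.Base

/-! The fibres and the logarithms of the functions. -/

noncomputable section

namespace Pool.Agent.Helper63.HF

open Complex MeasureTheory ComplexConjugate Finset

theorem FIB_card {r : ℕ} (hr : 0 < r) (a : ℂ) :
    Multiset.card (Polynomial.nthRoots r a) = r := by
  unfold Polynomial.nthRoots
  have h := IsAlgClosed.splits (Polynomial.X ^ r - Polynomial.C a : Polynomial ℂ)
  have h2 := Polynomial.splits_iff_card_roots.1 h
  rw [h2, Polynomial.natDegree_X_pow_sub_C]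

theorem fib_sum {r L : ℕ} (hr : 0 < r) (y : ℂ) {h : ℂ → ℂ} {v : ℂ}
    (hh : ∀ x, x ^ r = 1 - y ^ L → h x = v) : ((fib r L y).map h).sum = r * v := by
  have h1 : (fib r L y).map h = (fib r L y).map (fun _ => v) := by
    apply Multiset.map_congr rfl
    intro x hx
    exact hh x ((Polynomial.mem_nthRoots hr).1 hx)
  rw [h1, Multiset.map_const', Multiset.sum_replicate, nsmul_eq_mul]
  congr 2
  exact FIB_card hr _

theorem Fn.lg_inv (f : Fn) (y : ℂ) : f.inv.lg y = -f.lg y := by
  unfold Fn.lg Fn.inv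
  simp only
  rw [Finsupp.sum_neg_index (by simp), norm_inv, Real.log_inv]
  simp only [Finsupp.sum, Int.cast_neg, neg_mul, sum_neg_distrib]
  ring

theorem Fn.lg_e (y : ℂ) : Fn.e.lg y = 1 := by
  unfold Fn.lg Fn.e
  simp [Complex.norm_exp]

theorem Fn.lg_lin (ρ y : ℂ) : (Fn.lin ρ).lg y = lgr ρ y - lgr 1 y := by
  unfold Fn.lg Fn.lin lgr
  simp only
  rw [Finsupp.sum_sub_index (by intros; push_cast; ring)]
  simp

end Pool.Agent.Helper63.HF
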