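import Pool.Agent.Helper63.HF.Base

/-! Module ROT: rotation invariance. -/

noncomputable section

namespace Pool.Agent.Helper63.HF

open Complex MeasureTheory ComplexConjugate Finset

theorem ROT_norm {L : ℕ} (hL : 0 < L) {ρ : ℂ} (hρ : ρ ^ L = 1) : ‖ρ‖ = 1 :=
  Complex.norm_eq_one_of_pow_eq_one hρ hL.ne'

theorem ROT_mul_conj {L : ℕ} (hL : 0 < L) {ρ : ℂ} (hρ : ρ ^ L = 1) : ρ * conj ρ = 1 := by
  rw [Complex.mul_conj, Complex.normSq_eq_norm_sq, ROT_norm hL hρ]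
  simp

theorem ROT_W {L : ℕ} {ρ : ℂ} (hρ : ρ ^ L = 1) (α : ℝ) (y : ℂ) : W L α (ρ * y) = W L α y := by
  unfold W
  rw [mul_pow, hρ, one_mul]

theorem II_rot {L K K' : ℕ} (hL : 0 < L) (hK : 0 < K) (hK' : 0 < K') {ρ : ℂ} (hρ : ρ ^ L = 1)
    (g : ℂ → ℝ) (α : ℝ) :
    II g L α K K' = ρ ^ K * (conj ρ) ^ K' * II (fun y => g (ρ * y)) L α K K' := by
  have hn := ROT_norm hL hρ
  have hm := ROT_mul_conj hL hρ
  let c : Circle := ⟨ρ, mem_sphere_zero_iff_norm.2 hn⟩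
  have h1 := (rotation c).measurePreserving.integral_comp
    (rotation c).toHomeomorph.measurableEmbedding (fun y => (g y : ℂ) * kern L α K K' y)
  unfold II
  rw [← h1, ← integral_const_mul]
  refine integral_congr_ae (Filter.Eventually.of_forall fun y => ?_)
  have h2 : (rotation c) y = ρ * y := by
    rw [rotation_apply]
  have h3 : ρ ^ K * (conj ρ) ^ K' = ρ ^ (K - 1) * (conj ρ) ^ (K' - 1) := by
    obtain ⟨k, rfl⟩ : ∃ k, K = k + 1 := ⟨K - 1, by omega⟩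
    obtain ⟨k', rfl⟩ : ∃ k, K' = k + 1 := ⟨K' - 1, by omega⟩
    simp only [Nat.add_sub_cancel]
    calc ρ ^ (k + 1) * (conj ρ) ^ (k' + 1) = ρ ^ k * (conj ρ) ^ k' * (ρ * conj ρ) := by ring
      _ = _ := by rw [hm, mul_one]
  simp only [h2, kern, ROT_W hρ, h3, map_mul, mul_pow]
  ring

theorem lgr_rot {L K K' : ℕ} (hL : 0 < L) (hK : 0 < K) (hK' : 0 < K') {ρ : ℂ} (hρ : ρ ^ L = 1)
    (α : ℝ) :
    II (lgr ρ) L α K K' = ρ ^ K * (conj ρ) ^ K' * II (lgr 1) L α K K' := by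
  rw [II_rot hL hK hK' hρ]
  congr 2
  funext y
  unfold lgr
  rw [show ρ * y - ρ = ρ * (y - 1) by ring, norm_mul, ROT_norm hL hρ, one_mul]

theorem II_one_zero {L K K' : ℕ} (hK : 0 < K) (hK' : 0 < K') (h : K < L) (h' : K' < L)
    (hne : K ≠ K') (α : ℝ) : II (fun _ => 1) L α K K' = 0 := by
  have hL : 0 < L := by omega
  have hprim := Complex.isPrimitiveRoot_exp L hL.ne'
  set ρ : ℂ := Complex.exp (2 * Real.pi * I / L) with hρd
  have hρ : ρ ^ L = 1 := hprim.pow_eq_one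
  have hm := ROT_mul_conj hL hρ
  have h1 := II_rot hL hK hK' hρ (fun _ => 1) α
  by_contra h0
  have h2 : ρ ^ K * (conj ρ) ^ K' = 1 := by
    have h3 : (ρ ^ K * (conj ρ) ^ K') * II (fun _ => 1) L α K K' = 1 * II (fun _ => 1) L α K K' := by
      rw [one_mul]; exact h1.symm
    exact mul_right_cancel₀ h0 h3
  have h4 : ρ ^ K = ρ ^ K' := by
    calc ρ ^ K = ρ ^ K * (ρ * conj ρ) ^ K' := by rw [hm, one_pow, mul_one]
      _ = (ρ ^ K * (conj ρ) ^ K') * ρ ^ K' := by rw [mul_pow]; ring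
      _ = ρ ^ K' := by rw [h2, one_mul]
  exact hne (hprim.pow_inj h h' h4)

end Pool.Agent.Helper63.HF
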