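import Pool.Agent.Helper63.HF.INT
import Pool.Agent.Helper63.HF.ROT
import Pool.Agent.Helper63.HF.FIB

/-! The integrals of `log |(y - ρ) / (y - 1)|` and of `1`. -/

noncomputable section

namespace Pool.Agent.Helper63.HF

open Complex MeasureTheory ComplexConjugate Finset

theorem II_lin {L K K' : ℕ} {α : ℝ} (hL : 0 < L) (hα : 0 < α) (hα1 : α < 1) (hK : 0 < K)
    (hK' : 0 < K') (h : (K : ℝ) < α * L) (h' : (K' : ℝ) < α * L) {ρ : ℂ} (hρ : ρ ^ L = 1) :
    II (Fn.lin ρ).lg L α K K' = (ρ ^ K * (conj ρ) ^ K' - 1) * II (lgr 1) L α K K' := by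
  have h1 := lgr_int hL hα hα1 hK hK' h h' hρ
  have h2 := lgr_int hL hα hα1 hK hK' h h' (one_pow L : (1 : ℂ) ^ L = 1)
  have h3 : II (Fn.lin ρ).lg L α K K' = II (lgr ρ) L α K K' - II (lgr 1) L α K K' := by
    unfold II
    rw [← integral_sub h1 h2]
    congr 1
    funext y
    rw [Fn.lg_lin]
    push_cast
    ring
  rw [h3, lgr_rot hL hK hK' hρ]
  ring

theorem II_one_pos {L K : ℕ} {α : ℝ} (hL : 0 < L) (hα : 0 < α) (hα1 : α < 1) (hK : 0 < K)
    (h : (K : ℝ) < α * L) : 0 < (II (fun _ => 1) L α K K).re := by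
  have hi := kern_int hL hα hα1 hK hK h h
  have e : ∀ y, kern L α K K y = ((‖y‖ ^ (2 * (K - 1)) * W L α y : ℝ) : ℂ) := by
    intro y
    unfold kern
    rw [← mul_pow, Complex.mul_conj, Complex.normSq_eq_norm_sq]
    push_cast
    rw [← pow_mul]
  have e2 : II (fun _ => 1) L α K K = ((∫ y : ℂ, ‖y‖ ^ (2 * (K - 1)) * W L α y : ℝ) : ℂ) := by
    unfold II
    rw [← integral_complex_ofReal]
    congr 1
    funext y
    rw [e y]
    simp
  rw [e2, Complex.ofReal_re]
  have hi2 : Integrable (fun y : ℂ => ‖y‖ ^ (2 * (K - 1)) * W L α y) := by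
    have h1 := hi.norm
    refine h1.congr (Filter.Eventually.of_forall fun y => ?_)
    simp only
    rw [e y, Complex.norm_real, Real.norm_of_nonneg]
    unfold W
    positivity
  have h0 : 0 ≤ fun y : ℂ => ‖y‖ ^ (2 * (K - 1)) * W L α y := by
    intro y
    unfold W
    simp only [Pi.zero_apply]
    positivity
  rw [integral_pos_iff_support_of_nonneg h0 hi2]
  have hopen : IsOpen {y : ℂ | 0 < ‖y‖ ∧ ‖y‖ < 1} := by
    apply IsOpen.inter
    · exact isOpen_lt continuous_const continuous_norm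
    · exact isOpen_lt continuous_norm continuous_const
  have hne : {y : ℂ | 0 < ‖y‖ ∧ ‖y‖ < 1}.Nonempty := by
    refine ⟨((1 / 2 : ℝ) : ℂ), ?_⟩
    simp only [Set.mem_ofPred_eq, Complex.norm_real]
    norm_num
  refine (hopen.measure_pos volume hne).trans_le (measure_mono ?_)
  rintro y ⟨h1, h2⟩
  simp only [Function.mem_support]
  apply ne_of_gt
  apply mul_pos (by positivity)
  unfold W
  apply Real.rpow_pos_of_pos
  rw [norm_pos_iff]
  intro h3
  have h4 : ‖y ^ L‖ = 1 := by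
    rw [sub_eq_zero] at h3
    rw [← h3, norm_one]
  rw [norm_pow] at h4
  have h5 := pow_lt_one₀ h1.le h2 hL.ne'
  linarith

end Pool.Agent.Helper63.HF
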