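import Pool.Agent.Helper63.HF.AZ
import Pool.Agent.Helper63.HF.INT

/-! The integral of `log |y - 1|` against a nontrivial kernel does not vanish. -/

noncomputable section

namespace Pool.Agent.Helper63.HF

open Complex MeasureTheory ComplexConjugate Set

theorem neg_W_meas (L : ℕ) (α : ℝ) : Measurable (W L α) := by
  unfold W
  exact (by fun_prop : Measurable fun y : ℂ => ‖1 - y ^ L‖).pow_const _

theorem neg_G_meas (L K K' : ℕ) (α : ℝ) :
    Measurable fun y : ℂ => (lgr 1 y : ℂ) * kern L α K K' y := by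
  unfold kern lgr
  have := neg_W_meas L α
  have h1 : Measurable fun y : ℂ => Real.log ‖y - 1‖ := by fun_prop
  have h2 : Measurable fun y : ℂ => y ^ (K - 1) * (conj y) ^ (K' - 1) := by
    apply Measurable.mul
    · fun_prop
    · exact (Complex.continuous_conj.measurable).pow_const _
  exact (Complex.measurable_ofReal.comp h1).mul (h2.mul (Complex.measurable_ofReal.comp this))

theorem neg_symm_meas : Measurable (Complex.polarCoord.symm : ℝ × ℝ → ℂ) := by
  have : (Complex.polarCoord.symm : ℝ × ℝ → ℂ) =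
      fun p => p.1 * (Real.cos p.2 + Real.sin p.2 * Complex.I) := by
    funext p
    exact Complex.polarCoord_symm_apply p
  rw [this]
  fun_prop

/-- integrability in polar coordinates -/
theorem neg_polar_int {G : ℂ → ℂ} (hm : Measurable G) (hi : Integrable G) :
    IntegrableOn (fun p : ℝ × ℝ => p.1 • G (Complex.polarCoord.symm p))
      (Ioi (0 : ℝ) ×ˢ Ioo (-Real.pi) Real.pi) := by
  refine ⟨?_, ?_⟩
  · have : Measurable fun p : ℝ × ℝ => p.1 • G (Complex.polarCoord.symm p) :=
      measurable_fst.smul (hm.comp neg_symm_meas)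
    exact this.aestronglyMeasurable
  · have h1 := hi.2
    unfold HasFiniteIntegral at h1 ⊢
    have h2 := Complex.lintegral_comp_polarCoord_symm (fun y => ‖G y‖ₑ)
    rw [← h2, polarCoord_target] at h1
    refine lt_of_le_of_lt (le_of_eq ?_) h1
    refine setLIntegral_congr_fun (measurableSet_Ioi.prod measurableSet_Ioo) ?_
    intro p hp
    have hp1 : 0 < p.1 := hp.1
    simp only [smul_eq_mul, enorm_smul]
    congr 1
    rw [Real.enorm_eq_ofReal hp1.le]

theorem neg_symm_eq (s θ : ℝ) : Complex.polarCoord.symm (s, θ) = s * exp (θ * I) := by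
  rw [Complex.polarCoord_symm_apply, Complex.exp_mul_I, Complex.ofReal_cos, Complex.ofReal_sin]

theorem neg_kern_polar {L K K' : ℕ} (hK : 0 < K) (hK' : 0 < K') (α s θ : ℝ) :
    kern L α K K' (s * exp (θ * I)) =
      (s : ℂ) ^ (K + K' - 2) * (W L α (s * exp (θ * I)) : ℂ) *
        exp ((((K : ℤ) - (K' : ℤ) : ℤ) : ℂ) * θ * I) := by
  unfold kern
  have hc : conj ((s : ℂ) * exp (θ * I)) = s * exp (-(θ * I)) := by
    rw [map_mul, Complex.conj_ofReal, ← Complex.exp_conj, map_mul, Complex.conj_ofReal,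
      Complex.conj_I]
    congr 2
    ring
  rw [hc, mul_pow, mul_pow, ← Complex.exp_nat_mul, ← Complex.exp_nat_mul]
  obtain ⟨k, rfl⟩ : ∃ k, K = k + 1 := ⟨K - 1, by omega⟩
  obtain ⟨k', rfl⟩ : ∃ k, K' = k + 1 := ⟨K' - 1, by omega⟩
  have e1 : k + 1 + (k' + 1) - 2 = k + k' := by omega
  rw [e1, pow_add]
  simp only [Nat.add_sub_cancel]
  have e2 : exp (((((k + 1 : ℕ) : ℤ) - ((k' + 1 : ℕ) : ℤ) : ℤ) : ℂ) * θ * I) =
      exp ((k : ℂ) * (θ * I)) * exp ((k' : ℂ) * (-(θ * I))) := by
    rw [← Complex.exp_add]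
    congr 1
    push_cast
    ring
  rw [e2]
  ring

theorem II_ne {L K K' : ℕ} {α : ℝ} (hL : 0 < L) (hα : 0 < α) (hα1 : α < 1) (hK : 0 < K)
    (hK' : 0 < K') (h : (K : ℝ) < α * L) (h' : (K' : ℝ) < α * L) (hne : K ≠ K') :
    II (lgr 1) L α K K' ≠ 0 := by
  set δ : ℤ := (K : ℤ) - (K' : ℤ) with hδ
  have hLr : (0 : ℝ) < L := by exact_mod_cast hL
  have hKL : K < L := by
    have : (K : ℝ) < L := lt_of_lt_of_le h (by nlinarith)
    exact_mod_cast this
  have hKL' : K' < L := by
    have : (K' : ℝ) < L := lt_of_lt_of_le h' (by nlinarith)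
    exact_mod_cast this
  have hδ0 : δ ≠ 0 := by omega
  have hδL : ¬ (L : ℤ) ∣ δ := by
    rintro ⟨m, hm⟩
    have hm0 : m ≠ 0 := by
      rintro rfl
      rw [mul_zero] at hm
      exact hδ0 hm
    rcases lt_or_gt_of_ne hm0 with h1 | h1
    · have : (L : ℤ) * m ≤ -L := by nlinarith
      omega
    · have : (L : ℤ) ≤ L * m := by nlinarith
      omega
  set G : ℂ → ℂ := fun y => (lgr 1 y : ℂ) * kern L α K K' y with hG
  have hGm : Measurable G := neg_G_meas L K K' α
  have hGi : Integrable G := lgr_int hL hα hα1 hK hK' h h' (one_pow _)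
  have hP := neg_polar_int hGm hGi
  have hII : II (lgr 1) L α K K' =
      ∫ s in Ioi (0 : ℝ), ∫ θ in Ioo (-Real.pi) Real.pi,
        s • G (Complex.polarCoord.symm (s, θ)) := by
    have h1 : II (lgr 1) L α K K' = ∫ y, G y := rfl
    rw [h1, ← Complex.integral_comp_polarCoord_symm, polarCoord_target,
      Measure.volume_eq_prod ℝ ℝ]
    rw [setIntegral_prod _ (by rw [← Measure.volume_eq_prod]; exact hP)]
  set J : ℝ → ℂ := fun s => ∫ θ in Ioo (-Real.pi) Real.pi,
        s • G (Complex.polarCoord.symm (s, θ)) with hJ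
  have hJi : Integrable J (volume.restrict (Ioi (0 : ℝ))) := by
    have h2 : Integrable (fun p : ℝ × ℝ => p.1 • G (Complex.polarCoord.symm p))
        ((volume.restrict (Ioi (0 : ℝ))).prod (volume.restrict (Ioo (-Real.pi) Real.pi))) := by
      rw [Measure.prod_restrict, ← Measure.volume_eq_prod]
      exact hP
    exact h2.integral_prod_left
  have hJval : ∀ s : ℝ, 0 < s → s ≠ 1 → ∃ c : ℝ, 0 < c ∧ J s = -(c : ℂ) := by
    intro s hs hs1
    have hang : ∃ c : ℝ, 0 < c ∧ ∫ θ in (-Real.pi)..Real.pi,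
      ((Real.log ‖1 - s * exp (θ * I)‖ * W L α (s * exp (θ * I)) : ℝ) : ℂ) *
        exp (δ * θ * I) = -(c : ℂ) := by
      rcases lt_or_gt_of_ne hs1 with h1 | h1
      · exact ang_neg hL hα.le hδ0 hs h1
      · exact ang_out hL hα.le hδL h1
    obtain ⟨c, hc, hcI⟩ := hang
    refine ⟨s ^ (K + K' - 1) * c, by positivity, ?_⟩
    have hpt : ∀ θ : ℝ, s • G (Complex.polarCoord.symm (s, θ)) =
        ((s : ℂ) ^ (K + K' - 1)) *
          (((Real.log ‖1 - s * exp (θ * I)‖ * W L α (s * exp (θ * I)) : ℝ) : ℂ) *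
            exp (δ * θ * I)) := by
      intro θ
      rw [neg_symm_eq]
      simp only [hG]
      rw [neg_kern_polar hK hK', lgr, norm_sub_rev]
      have e : (s : ℂ) ^ (K + K' - 1) = s * (s : ℂ) ^ (K + K' - 2) := by
        rw [← pow_succ']
        congr 1
        omega
      rw [e, Complex.real_smul, ← hδ]
      push_cast
      ring
    have h3 : J s = ∫ θ in (-Real.pi)..Real.pi, ((s : ℂ) ^ (K + K' - 1)) *
          (((Real.log ‖1 - s * exp (θ * I)‖ * W L α (s * exp (θ * I)) : ℝ) : ℂ) *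
            exp (δ * θ * I)) := by
      rw [intervalIntegral.integral_of_le (by linarith [Real.pi_pos]),
        integral_Ioc_eq_integral_Ioo]
      simp only [hJ, hpt]
    rw [h3, intervalIntegral.integral_const_mul, hcI]
    push_cast
    ring
  intro hzero
  rw [hII] at hzero
  have hre : ∫ s in Ioi (0 : ℝ), (-(J s)).re = 0 := by
    have h4 : ∫ s in Ioi (0 : ℝ), (-(J s)).re = (∫ s in Ioi (0 : ℝ), -(J s)).re := by
      exact integral_re hJi.neg
    rw [h4, integral_neg, hzero]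
    simp
  have hnn : (0 : ℝ → ℝ) ≤ᵐ[volume.restrict (Ioi (0 : ℝ))] fun s => (-(J s)).re := by
    have h5 : ∀ᵐ s : ℝ ∂(volume.restrict (Ioi (0 : ℝ))), s ≠ 1 := by
      refine ae_restrict_of_ae ?_
      rw [ae_iff]
      simp
    filter_upwards [ae_restrict_mem measurableSet_Ioi, h5] with s hs hs1
    obtain ⟨c, hc, hcJ⟩ := hJval s hs hs1
    rw [hcJ]
    simp [hc.le]
  have hpos : 0 < ∫ s in Ioi (0 : ℝ), (-(J s)).re := by
    have hint : IntegrableOn (fun s => (-(J s)).re) (Ioi (0 : ℝ)) := hJi.neg.re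
    rw [setIntegral_pos_iff_support_of_nonneg_ae hnn hint]
    refine lt_of_lt_of_le ?_ (measure_mono (s := Ioo (0 : ℝ) 1) ?_)
    · simp
    · intro s hs
      refine ⟨?_, hs.1⟩
      obtain ⟨c, hc, hcJ⟩ := hJval s hs.1 hs.2.ne
      rw [Function.mem_support, hcJ]
      simp [hc.ne']
  linarith

end Pool.Agent.Helper63.HF
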