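import Pool.Agent.Helper63.HF.Base

/-!
Module PD: Fourier positivity.
-/

noncomputable section

namespace Pool.Agent.Helper63.HF

open Complex MeasureTheory ComplexConjugate

/-- trigonometric series with nonnegative summable coefficients, in which the frequencies in `T`
occur -/
def PDp (T : Set ℤ) (f : ℝ → ℂ) : Prop :=
  ∃ (ι : Type) (_ : Countable ι) (a : ι → ℝ) (m : ι → ℤ), (∀ i, 0 ≤ a i) ∧ Summable a ∧
    (∀ θ : ℝ, HasSum (fun i => (a i : ℂ) * exp (m i * θ * I)) (f θ)) ∧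
    ∀ μ ∈ T, ∃ i, m i = μ ∧ 0 < a i

theorem pd_one : PDp {0} (fun _ => 1) := by
  refine ⟨Unit, inferInstance, fun _ => 1, fun _ => 0, fun _ => zero_le_one, ?_, ?_, ?_⟩
  · exact (hasSum_fintype _).summable
  · intro θ
    simp
  · rintro μ rfl
    exact ⟨(), rfl, zero_lt_one⟩

theorem pd_mono {T T' : Set ℤ} {f : ℝ → ℂ} (h : T' ⊆ T) (hf : PDp T f) : PDp T' f := by
  obtain ⟨ι, i1, a, m, h1, h2, h3, h4⟩ := hf
  exact ⟨ι, i1, a, m, h1, h2, h3, fun μ hμ => h4 μ (h hμ)⟩

theorem pd_mul {T T' : Set ℤ} {f g : ℝ → ℂ} (hf : PDp T f) (hg : PDp T' g) :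
    PDp {μ | ∃ a ∈ T, ∃ b ∈ T', a + b = μ} (fun θ => f θ * g θ) := by
  obtain ⟨ι, i1, a, m, h1, h2, h3, h4⟩ := hf
  obtain ⟨κ, i2, b, n, k1, k2, k3, k4⟩ := hg
  have hs : Summable fun x : ι × κ => a x.1 * b x.2 := h2.mul_of_nonneg k2 h1 k1
  refine ⟨ι × κ, inferInstance, fun x => a x.1 * b x.2, fun x => m x.1 + n x.2,
    fun x => mul_nonneg (h1 _) (k1 _), hs, ?_, ?_⟩
  · intro θ
    have e : ∀ x : ι × κ, ((a x.1 : ℂ) * exp (m x.1 * θ * I)) * ((b x.2 : ℂ) * exp (n x.2 * θ * I))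
        = ((a x.1 * b x.2 : ℝ) : ℂ) * exp (((m x.1 + n x.2 : ℤ) : ℂ) * θ * I) := by
      intro x
      rw [ofReal_mul, Int.cast_add, add_mul, add_mul, exp_add]
      ring
    have hn : Summable fun x : ι × κ => ((a x.1 : ℂ) * exp (m x.1 * θ * I)) *
        ((b x.2 : ℂ) * exp (n x.2 * θ * I)) := by
      refine Summable.of_norm (hs.congr fun x => ?_)
      rw [e, norm_mul, norm_real, Real.norm_of_nonneg (mul_nonneg (h1 _) (k1 _))]
      have : ‖exp (((m x.1 + n x.2 : ℤ) : ℂ) * θ * I)‖ = 1 := by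
        have := norm_exp_ofReal_mul_I (((m x.1 + n x.2 : ℤ) : ℝ) * θ)
        rw [← this]
        push_cast
        rfl
      rw [this, mul_one]
    have := (h3 θ).mul (k3 θ) hn
    simp only [e] at this
    exact this
  · rintro μ ⟨c, hc, d, hd, rfl⟩
    obtain ⟨i, hi, hi'⟩ := h4 c hc
    obtain ⟨j, hj, hj'⟩ := k4 d hd
    exact ⟨(i, j), by simp [hi, hj], mul_pos hi' hj'⟩

theorem pd_smul {T : Set ℤ} {f : ℝ → ℂ} {c : ℝ} (hc : 0 ≤ c) (hT : c = 0 → T = ∅)
    (hf : PDp T f) : PDp T (fun θ => c * f θ) := by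
  obtain ⟨ι, i1, a, m, h1, h2, h3, h4⟩ := hf
  refine ⟨ι, i1, fun i => c * a i, m, fun i => mul_nonneg hc (h1 i), h2.mul_left c, ?_, ?_⟩
  · intro θ
    have := (h3 θ).mul_left (c : ℂ)
    simpa only [ofReal_mul, mul_assoc] using this
  · intro μ hμ
    obtain ⟨i, hi, hi'⟩ := h4 μ hμ
    refine ⟨i, hi, mul_pos (lt_of_le_of_ne hc fun h => ?_) hi'⟩
    rw [hT h.symm] at hμ
    exact hμ

theorem pd_pow {f : ℝ → ℂ} (hf : PDp ∅ f) (k : ℕ) : PDp ∅ (fun θ => f θ ^ k) := by
  induction k with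
  | zero =>
    simp only [pow_zero]
    exact pd_mono (Set.empty_subset _) pd_one
  | succ k ih =>
    simp only [pow_succ]
    exact pd_mono (Set.empty_subset _) (pd_mul ih hf)

theorem pd_unit (m : ℤ) (θ : ℝ) : ‖exp (m * θ * I)‖ = 1 := by
  have := norm_exp_ofReal_mul_I ((m : ℝ) * θ)
  rw [← this]
  push_cast
  rfl

theorem pd_sum {κ : Type} [Countable κ] {T : κ → Set ℤ} {g : κ → ℝ → ℂ} {F : ℝ → ℂ}
    (hg : ∀ k, PDp (T k) (g k)) (hF : ∀ θ, HasSum (fun k => g k θ) (F θ)) :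
    PDp (⋃ k, T k) F := by
  choose ι i1 a m h1 h2 h3 h4 using hg
  have h0 : ∀ k, ∑' i, a k i = (g k 0).re := by
    intro k
    have := (h3 k 0)
    simp only [ofReal_zero, mul_zero, zero_mul, exp_zero, mul_one] at this
    have h5 := (hasSum_re this)
    simp only [ofReal_re] at h5
    exact h5.tsum_eq
  have hs : Summable fun x : Σ k, ι k => a x.1 x.2 := by
    rw [summable_sigma_of_nonneg fun x => h1 x.1 x.2]
    refine ⟨fun k => h2 k, ?_⟩
    have h5 := (hasSum_re (hF 0)).summable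
    exact h5.congr fun k => (h0 k).symm
  refine ⟨Σ k, ι k, inferInstance, fun x => a x.1 x.2, fun x => m x.1 x.2,
    fun x => h1 x.1 x.2, hs, ?_, ?_⟩
  · intro θ
    have hn : Summable fun x : Σ k, ι k => ((a x.1 x.2 : ℂ) * exp (m x.1 x.2 * θ * I)) := by
      refine Summable.of_norm (hs.congr fun x => ?_)
      rw [norm_mul, norm_real, Real.norm_of_nonneg (h1 _ _), pd_unit, mul_one]
    have h5 := hn.hasSum.sigma (fun k => h3 k θ)
    rw [(hF θ).unique h5]
    exact hn.hasSum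
  · intro μ hμ
    obtain ⟨k, hk⟩ := Set.mem_iUnion.1 hμ
    obtain ⟨i, hi, hi'⟩ := h4 k μ hk
    exact ⟨⟨k, i⟩, hi, hi'⟩

/-- integrals -/
theorem pd_int {T : Set ℤ} {f : ℝ → ℂ} (hf : PDp T f) {δ : ℤ} (hδ : -δ ∈ T) :
    ∃ c : ℝ, 0 < c ∧ ∫ θ in (-Real.pi)..Real.pi, f θ * exp (δ * θ * I) = c := by
  obtain ⟨ι, i1, a, m, h1, h2, h3, h4⟩ := hf
  have hc : ∀ i, Continuous fun θ : ℝ => (a i : ℂ) * exp (m i * θ * I) * exp (δ * θ * I) := by
    intro i
    fun_prop
  have key := intervalIntegral.hasSum_intervalIntegral_of_summable_norm (ι := ι) (a := -Real.pi) (b := Real.pi)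
    (f := fun i => ⟨fun θ : ℝ => (a i : ℂ) * exp (m i * θ * I) * exp (δ * θ * I), hc i⟩) (by
      refine Summable.of_nonneg_of_le (fun i => norm_nonneg _) (fun i => ?_) h2
      rw [ContinuousMap.norm_le _ (h1 i)]
      rintro ⟨θ, hθ⟩
      show ‖(a i : ℂ) * exp (m i * θ * I) * exp (δ * θ * I)‖ ≤ a i
      rw [norm_mul, norm_mul, pd_unit, pd_unit, norm_real, Real.norm_of_nonneg (h1 i), mul_one,
        mul_one])
  have e1 : ∀ θ : ℝ, ∑' i, (a i : ℂ) * exp (m i * θ * I) * exp (δ * θ * I) =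
      f θ * exp (δ * θ * I) := fun θ => ((h3 θ).mul_right _).tsum_eq
  have e2 : ∀ i, ∫ θ in (-Real.pi)..Real.pi, (a i : ℂ) * exp (m i * θ * I) * exp (δ * θ * I) =
      (((if m i = -δ then 2 * Real.pi * a i else 0 : ℝ)) : ℂ) := by
    intro i
    have e3 : ∀ θ : ℝ, (a i : ℂ) * exp (m i * θ * I) * exp (δ * θ * I) =
        (a i : ℂ) * exp (((m i + δ : ℤ) * I) * θ) := by
      intro θ
      rw [mul_assoc, ← exp_add]
      congr 2
      push_cast
      ring
    simp only [e3]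
    rw [intervalIntegral.integral_const_mul]
    by_cases h : m i = -δ
    · have e4 : m i + δ = 0 := by omega
      rw [if_pos h, e4]
      simp
      ring
    · have e4 : m i + δ ≠ 0 := by omega
      rw [if_neg h]
      have hne : (((m i + δ : ℤ) : ℂ) * I) ≠ 0 :=
        mul_ne_zero (by exact_mod_cast e4) I_ne_zero
      rw [integral_exp_mul_complex hne]
      have e5 : exp (((m i + δ : ℤ) : ℂ) * I * (Real.pi : ℝ)) =
          exp (((m i + δ : ℤ) : ℂ) * I * ((-Real.pi : ℝ) : ℂ)) := by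
        rw [exp_eq_exp_iff_exists_int]
        exact ⟨m i + δ, by push_cast; ring⟩
      rw [e5, sub_self, zero_div, mul_zero, ofReal_zero]
  simp only [ContinuousMap.coe_mk, e1, e2] at key
  have hs : Summable fun i => (if m i = -δ then 2 * Real.pi * a i else 0 : ℝ) := by
    refine Summable.of_nonneg_of_le (fun i => ?_) (fun i => ?_) (h2.mul_left (2 * Real.pi))
    · have := h1 i
      split_ifs
      · positivity
      · exact le_rfl
    · have := h1 i
      split_ifs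
      · exact le_rfl
      · positivity
  refine ⟨∑' i, (if m i = -δ then 2 * Real.pi * a i else 0 : ℝ), ?_, ?_⟩
  · obtain ⟨i, hi, hi'⟩ := h4 _ hδ
    refine hs.tsum_pos (fun j => ?_) i ?_
    · have := h1 j
      split_ifs
      · positivity
      · exact le_rfl
    · rw [if_pos hi]
      positivity
  · rw [ofReal_tsum]
    exact key.tsum_eq.symm

theorem _root_.HasSum.congr_fun' {ι : Type} {f g : ι → ℂ} {a : ℂ} (h : HasSum f a)
    (e : ∀ i, f i = g i) : HasSum g a := by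
  rwa [show g = f from funext fun i => (e i).symm]

/-- the logarithm -/
theorem pd_log {r : ℝ} (h0 : 0 < r) (h1 : r < 1) (M : ℕ) :
    PDp {μ | ∃ n : ℤ, n ≠ 0 ∧ μ = n * M}
      (fun θ => ((-Real.log ‖1 - r * exp (M * θ * I)‖ : ℝ) : ℂ)) := by
  have hz : ∀ θ : ℝ, ‖(r : ℂ) * exp (M * θ * I)‖ < 1 := by
    intro θ
    have := pd_unit M θ
    rw [Int.cast_natCast] at this
    rw [norm_mul, this, mul_one, norm_real, Real.norm_of_nonneg h0.le]
    exact h1
  have hsum : Summable fun n : ℕ => r ^ n / (2 * n) := by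
    refine Summable.of_nonneg_of_le (fun n => by positivity) (fun n => ?_)
      (summable_geometric_of_lt_one h0.le h1)
    rcases n.eq_zero_or_pos with rfl | hn
    · simp
    · have : (1 : ℝ) ≤ n := by exact_mod_cast hn
      exact div_le_self (by positivity) (by linarith)
  let g : Bool → ℝ → ℂ := fun b θ =>
    if b then (1 / 2) * (-log (1 - r * exp (M * θ * I)))
    else (1 / 2) * conj (-log (1 - r * exp (M * θ * I)))
  let T : Bool → Set ℤ := fun b => if b then {μ | ∃ n : ℕ, 0 < n ∧ μ = n * M}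
    else {μ | ∃ n : ℕ, 0 < n ∧ μ = -(n * M)}
  have hg : ∀ b, PDp (T b) (g b) := by
    intro b
    cases b
    · refine ⟨ℕ, inferInstance, fun n => r ^ n / (2 * n), fun n => -(n * M),
        fun n => by positivity, hsum, fun θ => ?_, ?_⟩
      · have := (hasSum_conj' (f := fun n : ℕ => ((r : ℂ) * exp (M * θ * I)) ^ n / n)).2
          (hasSum_taylorSeries_neg_log (hz θ)) |>.mul_left (1 / 2 : ℂ)
        refine this.congr_fun' fun n => ?_
        rw [map_div₀, map_pow, map_mul, conj_ofReal, ← exp_conj, map_mul, map_mul, conj_I,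
          conj_ofReal, conj_natCast, conj_natCast, mul_pow, ← exp_nat_mul]
        have e9 : (n : ℂ) * ((M : ℂ) * θ * -I) = (((-(n * M) : ℤ)) : ℂ) * θ * I := by
          push_cast
          ring
        rw [e9]
        push_cast
        ring
      · rintro μ ⟨n, hn, rfl⟩
        exact ⟨n, rfl, by positivity⟩
    · refine ⟨ℕ, inferInstance, fun n => r ^ n / (2 * n), fun n => n * M,
        fun n => by positivity, hsum, fun θ => ?_, ?_⟩
      · have := (hasSum_taylorSeries_neg_log (hz θ)).mul_left (1 / 2 : ℂ)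
        refine this.congr_fun' fun n => ?_
        rw [mul_pow, ← exp_nat_mul]
        have e9 : (n : ℂ) * ((M : ℂ) * θ * I) = (((n * M : ℤ)) : ℂ) * θ * I := by
          push_cast
          ring
        rw [e9]
        push_cast
        ring
      · rintro μ ⟨n, hn, rfl⟩
        exact ⟨n, rfl, by positivity⟩
  have h := pd_sum (F := fun θ => ((-Real.log ‖1 - r * exp (M * θ * I)‖ : ℝ) : ℂ)) hg (by
    intro θ
    have e := hasSum_fintype (fun b => g b θ)
    rw [Fintype.sum_bool] at e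
    have e1 : g true θ + g false θ = ((-Real.log ‖1 - r * exp (M * θ * I)‖ : ℝ) : ℂ) := by
      show (1 / 2) * (-log (1 - r * exp (M * θ * I))) +
        (1 / 2) * conj (-log (1 - r * exp (M * θ * I))) = _
      rw [← mul_add, add_conj, ← log_re, neg_re]
      push_cast
      ring
    rw [e1] at e
    exact e)
  refine pd_mono ?_ h
  rintro μ ⟨n, hn, rfl⟩
  rw [Set.mem_iUnion]
  rcases lt_or_gt_of_ne hn with h | h
  · exact ⟨false, n.natAbs, by omega, by
      have : ((n.natAbs : ℕ) : ℤ) = -n := by omega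
      rw [this]; ring⟩
  · exact ⟨true, n.natAbs, by omega, by
      have : ((n.natAbs : ℕ) : ℤ) = n := by omega
      rw [this]⟩

theorem ang_neg {L : ℕ} (hL : 0 < L) {α : ℝ} (hα : 0 ≤ α) {δ : ℤ} (hδ : δ ≠ 0) {s : ℝ}
    (h0 : 0 < s) (h1 : s < 1) :
    ∃ c : ℝ, 0 < c ∧ ∫ θ in (-Real.pi)..Real.pi,
      ((Real.log ‖1 - s * exp (θ * I)‖ * W L α (s * exp (θ * I)) : ℝ) : ℂ) * exp (δ * θ * I) =
        -(c : ℂ) := by
  have hu : PDp {μ | μ ≠ 0} (fun θ => ((-Real.log ‖1 - s * exp (θ * I)‖ : ℝ) : ℂ)) := by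
    have h := pd_log h0 h1 1
    have e : (fun θ : ℝ => ((-Real.log ‖1 - (s : ℂ) * exp ((1 : ℕ) * θ * I)‖ : ℝ) : ℂ)) =
        fun θ : ℝ => ((-Real.log ‖1 - s * exp (θ * I)‖ : ℝ) : ℂ) := by
      funext θ
      rw [Nat.cast_one, one_mul]
    rw [e] at h
    refine pd_mono ?_ h
    intro μ hμ
    exact ⟨μ, hμ, by simp⟩
  have hv : PDp ∅ (fun θ => ((-Real.log ‖1 - (s * exp (θ * I)) ^ L‖ : ℝ) : ℂ)) := by
    have h := pd_mono (Set.empty_subset _) (pd_log (r := s ^ L) (pow_pos h0 L)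
      (pow_lt_one₀ h0.le h1 hL.ne') L)
    have e : (fun θ : ℝ => ((-Real.log ‖1 - ((s ^ L : ℝ) : ℂ) * exp (L * θ * I)‖ : ℝ) : ℂ)) =
        fun θ : ℝ => ((-Real.log ‖1 - (s * exp (θ * I)) ^ L‖ : ℝ) : ℂ) := by
      funext θ
      rw [mul_pow, ← exp_nat_mul, ofReal_pow, mul_assoc]
    rw [e] at h
    exact h
  have hnorm : ∀ θ : ℝ, ‖(s : ℂ) * exp (θ * I)‖ < 1 := by
    intro θ
    rw [norm_mul, norm_exp_ofReal_mul_I, mul_one, norm_real, Real.norm_of_nonneg h0.le]
    exact h1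
  have hW : PDp {0} (fun θ => (W L α (s * exp (θ * I)) : ℂ)) := by
    let g : ℕ → ℝ → ℂ := fun k θ => ((2 * α) ^ k / (k.factorial : ℝ) : ℝ) *
      ((-Real.log ‖1 - (s * exp (θ * I)) ^ L‖ : ℝ) : ℂ) ^ k
    let T : ℕ → Set ℤ := fun k => if k = 0 then {0} else ∅
    have hg : ∀ k, PDp (T k) (g k) := by
      intro k
      by_cases hk : k = 0
      · subst hk
        have e : g 0 = fun _ => 1 := by
          funext θ
          simp [g]
        rw [e]
        simp only [T, if_true]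
        exact pd_one
      · simp only [T, if_neg hk]
        exact pd_smul (by positivity) (fun _ => rfl) (pd_pow hv k)
    have h := pd_sum (F := fun θ => (W L α (s * exp (θ * I)) : ℂ)) hg (by
      intro θ
      have h2 := NormedSpace.expSeries_div_hasSum_exp
        (2 * α * (-Real.log ‖1 - (s * exp (θ * I)) ^ L‖) : ℝ)
      have h3 := (hasSum_ofReal (L := _)).2 h2
      rw [← Real.exp_eq_exp_ℝ] at h3
      have hpos : 0 < ‖1 - (s * exp (θ * I)) ^ L‖ := by
        rw [norm_pos_iff, sub_ne_zero]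
        intro h4
        have h5 : ‖(s * exp (θ * I)) ^ L‖ = 1 := by rw [← h4, norm_one]
        rw [norm_pow] at h5
        have h6 := pow_lt_one₀ (norm_nonneg _) (hnorm θ) hL.ne'
        linarith
      have e1 : W L α (s * exp (θ * I)) =
          Real.exp (2 * α * (-Real.log ‖1 - (s * exp (θ * I)) ^ L‖)) := by
        rw [W, Real.rpow_def_of_pos hpos]
        congr 1
        ring
      rw [e1]
      refine h3.congr_fun' fun k => ?_
      simp only [g]
      push_cast
      rw [mul_pow]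
      ring)
    refine pd_mono ?_ h
    intro μ hμ
    rw [Set.mem_iUnion]
    exact ⟨0, by simpa [T] using hμ⟩
  obtain ⟨c, hc, hc'⟩ := pd_int (δ := δ) (pd_mul hu hW) (by
    exact ⟨-δ, by simpa using hδ, 0, rfl, by ring⟩)
  refine ⟨c, hc, ?_⟩
  rw [← hc', ← intervalIntegral.integral_neg]
  congr 1
  funext θ
  push_cast
  ring

end Pool.Agent.Helper63.HF
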