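import Pool.Agent.Helper63.HF.Base

/-! Sums of roots of unity. -/

noncomputable section

namespace Pool.Agent.Helper63.HF

open Complex MeasureTheory ComplexConjugate Finset

theorem ru_sum {n : ℕ} (hn : 0 < n) (a b : ℕ) :
    ∑ j ∈ range n, ru n j ^ a * (conj (ru n j)) ^ b = if a ≡ b [MOD n] then (n : ℂ) else 0 := by
  have hz : IsPrimitiveRoot (Complex.exp (2 * Real.pi * I / n)) n :=
    Complex.isPrimitiveRoot_exp n hn.ne'
  set z := Complex.exp (2 * Real.pi * I / n) with hzd
  have hzn : ‖z‖ = 1 := Complex.norm_eq_one_of_pow_eq_one hz.pow_eq_one hn.ne'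
  have hz0 : z ≠ 0 := by
    intro h
    rw [h, norm_zero] at hzn
    exact zero_ne_one hzn
  have hcz : conj z * z = 1 := by
    rw [mul_comm, Complex.mul_conj, Complex.normSq_eq_norm_sq, hzn]
    norm_num
  have hterm : ∀ j, ru n j ^ a * (conj (ru n j)) ^ b = (z ^ a * (conj z) ^ b) ^ j := by
    intro j
    unfold ru
    rw [← hzd, map_pow, mul_pow, ← pow_mul, ← pow_mul, ← pow_mul, ← pow_mul, mul_comm j a,
      mul_comm j b]
  simp only [hterm]
  have hw : (z ^ a * (conj z) ^ b) * z ^ b = z ^ a := by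
    rw [mul_assoc, ← mul_pow, hcz, one_pow, mul_one]
  have hwn : (z ^ a * (conj z) ^ b) ^ n = 1 := by
    rw [mul_pow, ← pow_mul, ← pow_mul, mul_comm a n, mul_comm b n, pow_mul, pow_mul, ← map_pow,
      hz.pow_eq_one, map_one, one_pow, one_pow, one_mul]
  have hmod : z ^ a = z ^ b ↔ a ≡ b [MOD n] := by
    have hfin : IsOfFinOrder z := isOfFinOrder_iff_pow_eq_one.mpr ⟨n, hn, hz.pow_eq_one⟩
    have h0 : z ^ a = z ^ b ↔ a ≡ b [MOD orderOf z] := by
      have h1 := hfin.isUnit
      obtain ⟨u, hu⟩ := h1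
      rw [← hu, orderOf_units, ← Units.val_pow_eq_pow_val, ← Units.val_pow_eq_pow_val,
        Units.val_inj]
      exact pow_eq_pow_iff_modEq
    rwa [← hz.eq_orderOf] at h0
  have hiff : z ^ a * (conj z) ^ b = 1 ↔ a ≡ b [MOD n] := by
    constructor
    · intro h
      rw [h, one_mul] at hw
      exact hmod.mp hw.symm
    · intro h
      have h' : z ^ a = z ^ b := hmod.mpr h
      have h2 : (z ^ a * (conj z) ^ b) * z ^ b = 1 * z ^ b := by rw [hw, one_mul, h']
      exact mul_right_cancel₀ (pow_ne_zero _ hz0) h2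
  by_cases h : a ≡ b [MOD n]
  · rw [if_pos h, hiff.mpr h]
    simp
  · rw [if_neg h]
    have hne : z ^ a * (conj z) ^ b ≠ 1 := fun hh => h (hiff.mp hh)
    rw [geom_sum_eq hne, hwn]
    simp

end Pool.Agent.Helper63.HF
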