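import Pool.Agent.Helper63.HF.FIB
import Pool.Agent.Helper63.HF.REGC
import Pool.Agent.Helper63.HF.BAS
import Pool.Agent.Helper63.HF.INT
import Pool.Agent.Helper63.HF.ROT
import Pool.Agent.Helper63.HF.LIN
import Pool.Agent.Helper63.HF.PD
import Pool.Agent.Helper63.HF.AZ
import Pool.Agent.Helper63.HF.NEG
import Pool.Agent.Helper63.HF.ROU
import Pool.Agent.Helper63.HF.ALG

/-! Final assembly. -/

noncomputable section

namespace Pool.Agent.Helper63.HF

open Complex MeasureTheory ComplexConjugate Finset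

theorem fin_prod3 (a b d : ℕ) (c : ℂ) (A B C : ℕ → ℂ) :
    c * (∑ j ∈ range a, A j) * (∑ k ∈ range b, B k) * (∑ l ∈ range d, C l) =
      ∑ j ∈ range a, ∑ k ∈ range b, ∑ l ∈ range d, c * (A j * B k * C l) := by
  have h : c * (∑ j ∈ range a, A j) * (∑ k ∈ range b, B k) * (∑ l ∈ range d, C l) =
      c * ((∑ j ∈ range a, A j) * (∑ k ∈ range b, B k) * (∑ l ∈ range d, C l)) := by ring
  rw [h, Finset.sum_mul_sum, Finset.sum_mul, Finset.mul_sum]
  refine Finset.sum_congr rfl fun j _ => ?_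
  rw [Finset.sum_mul, Finset.mul_sum]
  refine Finset.sum_congr rfl fun k _ => ?_
  rw [Finset.mul_sum, Finset.mul_sum]

theorem fin_triple (a b d : ℕ) (c : ℂ) (u v w u' v' w' : ℕ → ℂ) :
    ∑ j ∈ range a, ∑ k ∈ range b, ∑ l ∈ range d,
      ((c * (u j * v k * w l)).re : ℂ) * (u' j * v' k * w' l) =
    (c * (∑ j ∈ range a, u j * u' j) * (∑ k ∈ range b, v k * v' k) *
        (∑ l ∈ range d, w l * w' l) +
      conj c * (∑ j ∈ range a, conj (u j) * u' j) * (∑ k ∈ range b, conj (v k) * v' k) *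
        (∑ l ∈ range d, conj (w l) * w' l)) / 2 := by
  rw [fin_prod3, fin_prod3, ← Finset.sum_add_distrib, Finset.sum_div]
  refine Finset.sum_congr rfl fun j _ => ?_
  rw [← Finset.sum_add_distrib, Finset.sum_div]
  refine Finset.sum_congr rfl fun k _ => ?_
  rw [← Finset.sum_add_distrib, Finset.sum_div]
  refine Finset.sum_congr rfl fun l _ => ?_
  rw [Complex.re_eq_add_conj]
  simp only [map_mul]
  ring

/-- sums over roots of unity in the form used below -/
theorem fin_ru {n : ℕ} (hn : 0 < n) (a b c d : ℕ) :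
    ∑ j ∈ range n, (ru n j ^ a * conj (ru n j) ^ b) * (ru n j ^ c * conj (ru n j) ^ d) =
      if a + c ≡ b + d [MOD n] then (n : ℂ) else 0 := by
  rw [← ru_sum hn]
  refine Finset.sum_congr rfl fun j _ => ?_
  ring

theorem fin_modEq_lt {n a b : ℕ} (ha : a < n) (hb : b < n) (h : a ≡ b [MOD n]) : a = b := by
  unfold Nat.ModEq at h
  rwa [Nat.mod_eq_of_lt ha, Nat.mod_eq_of_lt hb] at h

/-- a sum `a + b` with `0 < a, b < n` that is `0` mod `n` equals `n` -/
theorem fin_modEq_zero {n a b : ℕ} (ha0 : 0 < a) (ha : a < n) (hb : b < n)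
    (h : 0 ≡ a + b [MOD n]) : a + b = n := by
  obtain ⟨k, hk⟩ := (Nat.modEq_zero_iff_dvd.mp h.symm)
  have h1 : k ≠ 0 := by rintro rfl; omega
  have h2 : k < 2 := by
    by_contra hc
    have : n * 2 ≤ n * k := Nat.mul_le_mul_left n (by omega)
    omega
  have : k = 1 := by omega
  subst this
  omega

section
variable {r N M : ℕ}

/-- the `p`, `q`, `q'` of an index -/
abbrev pp (i : Idx r N M) : ℕ := (i.1.1 : ℕ)
abbrev qq (i : Idx r N M) : ℕ := (i.1.2.1 : ℕ)
abbrev qq' (i : Idx r N M) : ℕ := (i.1.2.2 : ℕ)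

theorem idx_ext {i j : Idx r N M} (h1 : pp i = pp j) (h2 : qq i = qq j) (h3 : qq' i = qq' j) :
    i = j := by
  apply Subtype.ext
  exact Prod.ext (Fin.ext h1) (Prod.ext (Fin.ext h2) (Fin.ext h3))

theorem idx_lt (hM : 0 < M) (hN : 0 < N) (hr : 0 < r) (i : Idx r N M) :
    ((M * qq i : ℕ) : ℝ) < (1 - (pp i : ℝ) / r) * ((N * M : ℕ) : ℝ) ∧
    ((N * qq' i : ℕ) : ℝ) < (1 - (pp i : ℝ) / r) * ((N * M : ℕ) : ℝ) := by
  obtain ⟨h1, h2, h3, h4, h5⟩ := i.2
  have hr' : (0 : ℝ) < r := by exact_mod_cast hr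
  have hM' : (0 : ℝ) < M := by exact_mod_cast hM
  have hN' : (0 : ℝ) < N := by exact_mod_cast hN
  have h4' : (pp i : ℝ) * N + qq i * r < r * N := by exact_mod_cast h4
  have h5' : (pp i : ℝ) * M + qq' i * r < r * M := by exact_mod_cast h5
  push_cast
  constructor
  · rw [← mul_lt_mul_iff_right₀ hr']
    have e : (r : ℝ) * ((1 - (pp i : ℝ) / r) * (N * M)) = (r - pp i) * (N * M) := by
      field_simp
    rw [e]
    nlinarith
  · rw [← mul_lt_mul_iff_right₀ hr']
    have e : (r : ℝ) * ((1 - (pp i : ℝ) / r) * (N * M)) = (r - pp i) * (N * M) := by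
      field_simp
    rw [e]
    nlinarith

theorem idx_al (hr : 0 < r) (i : Idx r N M) :
    0 < 1 - (pp i : ℝ) / r ∧ 1 - (pp i : ℝ) / r < 1 := by
  obtain ⟨h1, h2, h3, h4, h5⟩ := i.2
  have hr' : (0 : ℝ) < r := by exact_mod_cast hr
  have h1' : (0 : ℝ) < pp i := by exact_mod_cast h1
  have h6 : (pp i : ℝ) < r := by exact_mod_cast i.1.1.2
  constructor
  · rw [sub_pos, div_lt_one hr']; exact h6
  · have := div_pos h1' hr'
    linarith

end

theorem fin_S1 {n a b : ℕ} (ha0 : 0 < a) (ha : a < n) (hb : b < n) :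
    ∑ j ∈ range n, ru n j ^ a * (conj (ru n j ^ b) - 1) = if a = b then (n : ℂ) else 0 := by
  have hn : 0 < n := by omega
  have h1 := ru_sum hn a b
  have h2 := ru_sum hn a 0
  rw [if_neg (fun h => ha0.ne' (fin_modEq_lt ha hn h))] at h2
  have h3 : (if a ≡ b [MOD n] then (n : ℂ) else 0) = if a = b then (n : ℂ) else 0 := by
    by_cases h : a = b
    · subst h; rw [if_pos rfl, if_pos (Nat.ModEq.refl _)]
    · rw [if_neg h, if_neg (fun h' => h (fin_modEq_lt ha hb h'))]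
  rw [← h3, ← h1]
  simp only [pow_zero, mul_one] at h2
  simp only [mul_sub, mul_one, Finset.sum_sub_distrib, h2, sub_zero, map_pow]

theorem fin_S1' {n a b : ℕ} (ha0 : 0 < a) (ha : a < n) (hb : b < n) :
    ∑ j ∈ range n, conj (ru n j ^ a) * (conj (ru n j ^ b) - 1) =
      if a + b = n then (n : ℂ) else 0 := by
  have hn : 0 < n := by omega
  have h1 := ru_sum hn 0 (a + b)
  have h2 := ru_sum hn 0 a
  rw [if_neg (fun h => ha0.ne' (fin_modEq_lt ha hn h.symm))] at h2
  have h3 : (if 0 ≡ a + b [MOD n] then (n : ℂ) else 0) = if a + b = n then (n : ℂ) else 0 := by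
    by_cases h : a + b = n
    · rw [if_pos h, if_pos]
      rw [h]
      exact (Nat.modEq_zero_iff_dvd.mpr dvd_rfl).symm
    · rw [if_neg h, if_neg (fun h' => h (fin_modEq_zero ha0 ha hb h'))]
  rw [← h3, ← h1]
  simp only [pow_zero, one_mul] at h2
  simp only [mul_sub, mul_one, Finset.sum_sub_distrib, map_pow, h2, sub_zero, pow_zero, one_mul,
    pow_add]

theorem fin_S2 {n a b : ℕ} (ha : a < n) (hb : b < n) :
    ∑ j ∈ range n, ru n j ^ a * conj (ru n j ^ b) = if a = b then (n : ℂ) else 0 := by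
  have hn : 0 < n := by omega
  have h1 := ru_sum hn a b
  have h3 : (if a ≡ b [MOD n] then (n : ℂ) else 0) = if a = b then (n : ℂ) else 0 := by
    by_cases h : a = b
    · subst h; rw [if_pos rfl, if_pos (Nat.ModEq.refl _)]
    · rw [if_neg h, if_neg (fun h' => h (fin_modEq_lt ha hb h'))]
  rw [← h3, ← h1]
  simp only [map_pow]

theorem fin_S2' {n a b : ℕ} (ha0 : 0 < a) (ha : a < n) (hb : b < n) :
    ∑ j ∈ range n, conj (ru n j ^ a) * conj (ru n j ^ b) =
      if a + b = n then (n : ℂ) else 0 := by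
  have hn : 0 < n := by omega
  have h1 := ru_sum hn 0 (a + b)
  have h3 : (if 0 ≡ a + b [MOD n] then (n : ℂ) else 0) = if a + b = n then (n : ℂ) else 0 := by
    by_cases h : a + b = n
    · rw [if_pos h, if_pos]
      rw [h]
      exact (Nat.modEq_zero_iff_dvd.mpr dvd_rfl).symm
    · rw [if_neg h, if_neg (fun h' => h (fin_modEq_zero ha0 ha hb h'))]
  rw [← h3, ← h1]
  simp only [map_pow, pow_zero, one_mul, pow_add]

theorem fin_S3 {n K K0 K' : ℕ} (hK : K < n) (hK0 : K0 < n) (hK' : K' < n) (hne : K0 ≠ K') :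
    ∑ l ∈ range n, (conj (ru n l ^ K0) * ru n l ^ K') * (ru n l ^ K * conj (ru n l) ^ K' - 1) =
      if K = K0 then (n : ℂ) else 0 := by
  have hn : 0 < n := by omega
  have h1 := ru_sum hn (K' + K) (K0 + K')
  have h2 := ru_sum hn K' K0
  rw [if_neg (fun h => hne (fin_modEq_lt hK' hK0 h).symm)] at h2
  have h3 : (if K' + K ≡ K0 + K' [MOD n] then (n : ℂ) else 0) =
      if K = K0 then (n : ℂ) else 0 := by
    by_cases h : K = K0
    · subst h; rw [if_pos rfl, if_pos (by rw [Nat.add_comm])]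
    · rw [if_neg h, if_neg]
      intro h'
      rw [Nat.add_comm K0 K'] at h'
      exact h (fin_modEq_lt hK hK0 (Nat.ModEq.add_left_cancel' K' h'))
  rw [← h3, ← h1]
  have e : ∀ l, (conj (ru n l ^ K0) * ru n l ^ K') * (ru n l ^ K * conj (ru n l) ^ K' - 1) =
      ru n l ^ (K' + K) * conj (ru n l) ^ (K0 + K') - ru n l ^ K' * conj (ru n l) ^ K0 := by
    intro l
    rw [map_pow]
    ring
  simp only [e, Finset.sum_sub_distrib, h2, sub_zero]

section
variable {r N M : ℕ}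

theorem fin_sum_mem {V : Type*} [AddCommGroup V] [Module ℝ V] (WW : Submodule ℝ V) (a b d : ℕ)
    (x : ℕ → ℕ → ℕ → ℝ) (v : ℕ → ℕ → ℕ → V) (hv : ∀ j k l, v j k l ∈ WW) :
    ∑ j ∈ range a, ∑ k ∈ range b, ∑ l ∈ range d, x j k l • v j k l ∈ WW :=
  WW.sum_mem fun _ _ => WW.sum_mem fun _ _ => WW.sum_mem fun _ _ => WW.smul_mem _ (hv _ _ _)

/-- the components of a weighted sum of vectors of the form `bas_vec` -/
theorem fin_comp (a b d : ℕ) (x : ℕ → ℕ → ℕ → ℝ) (g : ℕ → ℕ → ℕ → Idx r N M → ℂ) :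
    ∑ j ∈ range a, ∑ k ∈ range b, ∑ l ∈ range d,
      x j k l • ((g j k l, 0, 0) : (Idx r N M → ℂ) × ℝ × ℝ) =
    (fun i => ∑ j ∈ range a, ∑ k ∈ range b, ∑ l ∈ range d, (x j k l : ℂ) * g j k l i, 0, 0) := by
  ext i
  · simp [Prod.fst_sum, Finset.sum_apply]
  · simp [Prod.snd_sum]
  · simp [Prod.snd_sum]

theorem fin_lt1 (hM : 0 < M) (i : Idx r N M) : M * qq i < N * M := by
  rw [Nat.mul_comm N M]
  exact Nat.mul_lt_mul_of_pos_left i.1.2.1.2 hM

theorem fin_lt2 (hN : 0 < N) (i : Idx r N M) : N * qq' i < N * M :=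
  Nat.mul_lt_mul_of_pos_left i.1.2.2.2 hN

theorem fin_off (hr : 2 ≤ r) (hN : 0 < N) (hM : 0 < M) (i0 : Idx r N M)
    (hne : M * qq i0 ≠ N * qq' i0) (c : ℂ)
    (WW : Submodule ℝ ((Idx r N M → ℂ) × ℝ × ℝ)) (hWW : ∀ ξ, IsCycle ξ → vec ξ ∈ WW) :
    ((Pi.single i0 (c * (r * M * N * (r * M * ((N * M : ℕ) : ℂ) / 2) *
      II (lgr 1) (N * M) (1 - (pp i0 : ℝ) / r) (M * qq i0) (N * qq' i0))), 0, 0) :
        (Idx r N M → ℂ) × ℝ × ℝ) ∈ WW := by
  have hL : 0 < N * M := Nat.mul_pos hN hM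
  have hmem := fin_sum_mem WW r M (N * M)
    (fun j k l => (c * (ru r j ^ pp i0 * ru M k ^ qq' i0 *
      (conj (ru (N * M) l ^ (M * qq i0)) * ru (N * M) l ^ (N * qq' i0)))).re)
    (fun j k l => vec (bas (r := r) hN hM (ru r j) (ru M k) (ru_pow (by omega) j) (ru_pow hM k)
      (Fn.lin (ru (N * M) l)))) (by
        intro j k l
        apply hWW
        apply bas_cycle (by omega)
        intro ρ hρ
        have : ρ = ru (N * M) l ∨ ρ = 1 := by
          by_contra hcon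
          push Not at hcon
          simp only [Fn.lin, Finsupp.mem_support_iff, Finsupp.sub_apply] at hρ
          rw [Finsupp.single_eq_of_ne hcon.1, Finsupp.single_eq_of_ne hcon.2] at hρ
          exact hρ (by simp)
        rcases this with rfl | rfl
        · exact ru_pow hL l
        · exact one_pow _)
  simp only [bas_vec hr] at hmem
  rw [fin_comp] at hmem
  convert hmem using 2
  funext i
  obtain ⟨h1, h2, h3, h4, h5⟩ := i.2
  obtain ⟨g1, g2, g3, g4, g5⟩ := i0.2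
  obtain ⟨a1, a2⟩ := idx_lt hM hN (by omega) i
  obtain ⟨b1, b2⟩ := idx_al (by omega) i
  have e : ∀ j k l : ℕ, (((c * (ru r j ^ pp i0 * ru M k ^ qq' i0 *
      (conj (ru (N * M) l ^ (M * qq i0)) * ru (N * M) l ^ (N * qq' i0)))).re : ℝ) : ℂ) *
      (r * M * N * conj (ru M k ^ (i.1.2.2 : ℕ)) * (conj (ru r j ^ (i.1.1 : ℕ)) - 1) *
        II (Fn.lin (ru (N * M) l)).lg (N * M) (1 - ((i.1.1 : ℕ) : ℝ) / r) (M * (i.1.2.1 : ℕ))
          (N * (i.1.2.2 : ℕ))) =
      (r * M * N * II (lgr 1) (N * M) (1 - (pp i : ℝ) / r) (M * qq i) (N * qq' i)) *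
      ((((c * (ru r j ^ pp i0 * ru M k ^ qq' i0 *
      (conj (ru (N * M) l ^ (M * qq i0)) * ru (N * M) l ^ (N * qq' i0)))).re : ℝ) : ℂ) *
      ((conj (ru r j ^ pp i) - 1) * conj (ru M k ^ qq' i) *
        (ru (N * M) l ^ (M * qq i) * conj (ru (N * M) l) ^ (N * qq' i) - 1))) := by
    intro j k l
    rw [II_lin hL b1 b2 (Nat.mul_pos hM h2) (Nat.mul_pos hN h3) a1 a2 (ru_pow hL l)]
    ring
  simp only [e]
  simp only [← Finset.mul_sum]
  rw [fin_triple]
  have p1 : pp i < r := i.1.1.2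
  have p0 : pp i0 < r := i0.1.1.2
  have q1 : qq' i < M := i.1.2.2.2
  have q0 : qq' i0 < M := i0.1.2.2.2
  have s1 := fin_S1 g1 p0 p1
  have s2 := fin_S2 q0 q1
  have s1' := fin_S1' g1 p0 p1
  have s2' := fin_S2' g3 q0 q1
  have hz : (∑ j ∈ range r, conj (ru r j ^ pp i0) * (conj (ru r j ^ pp i) - 1)) *
      (∑ k ∈ range M, conj (ru M k ^ qq' i0) * conj (ru M k ^ qq' i)) = 0 := by
    rw [s1', s2']
    by_cases c1 : pp i0 + pp i = r
    · by_cases c2 : qq' i0 + qq' i = M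
      · exfalso
        have e1 : (pp i0 + pp i) * M + (qq' i0 + qq' i) * r < 2 * (r * M) := by
          have : (pp i0 + pp i) * M + (qq' i0 + qq' i) * r =
            (pp i0 * M + qq' i0 * r) + (pp i * M + qq' i * r) := by ring
          rw [this]
          have h5' : pp i * M + qq' i * r < r * M := h5
          have g5' : pp i0 * M + qq' i0 * r < r * M := g5
          omega
        rw [c1, c2] at e1
        have : r * M + M * r = 2 * (r * M) := by ring
        omega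
      · rw [if_neg c2, mul_zero]
    · rw [if_neg c1, zero_mul]
  rw [mul_assoc (conj c) _ _, hz, mul_zero, zero_mul, add_zero, s1, s2]
  by_cases hi : i = i0
  · subst hi
    rw [Pi.single_eq_same, if_pos rfl, if_pos rfl,
      fin_S3 (fin_lt1 hM i) (fin_lt1 hM i) (fin_lt2 hN i) hne, if_pos rfl]
    push_cast
    ring
  · rw [Pi.single_eq_of_ne hi]
    by_cases c1 : pp i0 = pp i
    · by_cases c2 : qq' i0 = qq' i
      · rw [if_pos c1, if_pos c2, ← c2,
          fin_S3 (fin_lt1 hM i) (fin_lt1 hM i0) (fin_lt2 hN i0) hne, if_neg, mul_zero,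
          zero_div, mul_zero]
        intro c3
        exact hi (idx_ext c1.symm (Nat.eq_of_mul_eq_mul_left hM c3) c2.symm)
      · rw [if_neg c2]; ring
    · rw [if_neg c1]; ring

theorem fin_diag (hr : 2 ≤ r) (hN : 0 < N) (hM : 0 < M) (i0 : Idx r N M)
    (heq : M * qq i0 = N * qq' i0) (c : ℂ)
    (WW : Submodule ℝ ((Idx r N M → ℂ) × ℝ × ℝ)) (hWW : ∀ ξ, IsCycle ξ → vec ξ ∈ WW) :
    ((Pi.single i0 (c * (r * M * N * (r * M / 2) *
      II (fun _ => 1) (N * M) (1 - (pp i0 : ℝ) / r) (M * qq i0) (N * qq' i0))), 0, 0) :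
        (Idx r N M → ℂ) × ℝ × ℝ) ∈ WW := by
  have hmem := fin_sum_mem WW r M 1
    (fun j k l => (c * (ru r j ^ pp i0 * ru M k ^ qq' i0 * 1)).re)
    (fun j k l => vec (bas (r := r) hN hM (ru r j) (ru M k) (ru_pow (by omega) j) (ru_pow hM k)
      Fn.e)) (by
        intro j k l
        apply hWW
        apply bas_cycle (by omega)
        intro ρ hρ
        simp [Fn.e] at hρ)
  simp only [bas_vec hr] at hmem
  rw [fin_comp] at hmem
  convert hmem using 2
  funext i
  obtain ⟨h1, h2, h3, h4, h5⟩ := i.2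
  obtain ⟨g1, g2, g3, g4, g5⟩ := i0.2
  have hee : Fn.e.lg = fun _ => 1 := funext Fn.lg_e
  have e : ∀ j k : ℕ, (((c * (ru r j ^ pp i0 * ru M k ^ qq' i0 * 1)).re : ℝ) : ℂ) *
      (r * M * N * conj (ru M k ^ (i.1.2.2 : ℕ)) * (conj (ru r j ^ (i.1.1 : ℕ)) - 1) *
        II Fn.e.lg (N * M) (1 - ((i.1.1 : ℕ) : ℝ) / r) (M * (i.1.2.1 : ℕ))
          (N * (i.1.2.2 : ℕ))) =
      (r * M * N * II (fun _ => 1) (N * M) (1 - (pp i : ℝ) / r) (M * qq i) (N * qq' i)) *
      ((((c * (ru r j ^ pp i0 * ru M k ^ qq' i0 * 1)).re : ℝ) : ℂ) *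
      ((conj (ru r j ^ pp i) - 1) * conj (ru M k ^ qq' i) * 1)) := by
    intro j k
    rw [hee]
    ring
  have ft := fin_triple r M 1 c (fun j => ru r j ^ pp i0) (fun k => ru M k ^ qq' i0) (fun _ => 1)
    (fun j => conj (ru r j ^ pp i) - 1) (fun k => conj (ru M k ^ qq' i)) (fun _ => 1)
  simp only [Finset.sum_range_one, map_one, mul_one] at ft
  simp only [e, Finset.sum_range_one]
  simp only [← Finset.mul_sum, mul_one]
  rw [ft]
  have p1 : pp i < r := i.1.1.2
  have p0 : pp i0 < r := i0.1.1.2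
  have q1 : qq' i < M := i.1.2.2.2
  have q0 : qq' i0 < M := i0.1.2.2.2
  have s1 := fin_S1 g1 p0 p1
  have s2 := fin_S2 q0 q1
  have s1' := fin_S1' g1 p0 p1
  have s2' := fin_S2' g3 q0 q1
  have hz : (∑ j ∈ range r, conj (ru r j ^ pp i0) * (conj (ru r j ^ pp i) - 1)) *
      (∑ k ∈ range M, conj (ru M k ^ qq' i0) * conj (ru M k ^ qq' i)) = 0 := by
    rw [s1', s2']
    by_cases c1 : pp i0 + pp i = r
    · by_cases c2 : qq' i0 + qq' i = M
      · exfalso
        have e1 : (pp i0 + pp i) * M + (qq' i0 + qq' i) * r < 2 * (r * M) := by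
          have : (pp i0 + pp i) * M + (qq' i0 + qq' i) * r =
            (pp i0 * M + qq' i0 * r) + (pp i * M + qq' i * r) := by ring
          rw [this]
          have h5' : pp i * M + qq' i * r < r * M := h5
          have g5' : pp i0 * M + qq' i0 * r < r * M := g5
          omega
        rw [c1, c2] at e1
        have : r * M + M * r = 2 * (r * M) := by ring
        omega
      · rw [if_neg c2, mul_zero]
    · rw [if_neg c1, zero_mul]
  rw [mul_assoc (conj c) _ _, hz, mul_zero, add_zero, s1, s2]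
  by_cases hi : i = i0
  · subst hi
    rw [Pi.single_eq_same, if_pos rfl, if_pos rfl]
    ring
  · rw [Pi.single_eq_of_ne hi]
    by_cases c1 : pp i0 = pp i
    · by_cases c2 : qq' i0 = qq' i
      · have hK : M * qq i ≠ N * qq' i := by
          intro c3
          rw [← c2, ← heq] at c3
          exact hi (idx_ext c1.symm (Nat.eq_of_mul_eq_mul_left hM c3) c2.symm)
        rw [II_one_zero (Nat.mul_pos hM h2) (Nat.mul_pos hN h3) (fin_lt1 hM i) (fin_lt2 hN i) hK]
        ring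
      · rw [if_neg c2]; ring
    · rw [if_neg c1]; ring

theorem fin_single (hr : 2 ≤ r) (hN : 0 < N) (hM : 0 < M) (i0 : Idx r N M) (z : ℂ)
    (WW : Submodule ℝ ((Idx r N M → ℂ) × ℝ × ℝ)) (hWW : ∀ ξ, IsCycle ξ → vec ξ ∈ WW) :
    ((Pi.single i0 z, 0, 0) : (Idx r N M → ℂ) × ℝ × ℝ) ∈ WW := by
  obtain ⟨h1, h2, h3, h4, h5⟩ := i0.2
  obtain ⟨a1, a2⟩ := idx_lt hM hN (by omega) i0
  obtain ⟨b1, b2⟩ := idx_al (by omega) i0
  have hL : 0 < N * M := Nat.mul_pos hN hM
  have hr' : (r : ℂ) ≠ 0 := by exact_mod_cast (by omega : r ≠ 0)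
  have hN' : (N : ℂ) ≠ 0 := by exact_mod_cast hN.ne'
  have hM' : (M : ℂ) ≠ 0 := by exact_mod_cast hM.ne'
  by_cases hne : M * qq i0 = N * qq' i0
  · have hpos : II (fun _ => 1) (N * M) (1 - (pp i0 : ℝ) / r) (M * qq i0) (N * qq' i0) ≠ 0 := by
      rw [← hne]
      intro h0
      have := II_one_pos hL b1 b2 (Nat.mul_pos hM h2) a1
      rw [h0] at this
      simp at this
    have := fin_diag hr hN hM i0 hne (z / (r * M * N * (r * M / 2) *
      II (fun _ => 1) (N * M) (1 - (pp i0 : ℝ) / r) (M * qq i0) (N * qq' i0))) WW hWW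
    rw [div_mul_cancel₀] at this
    · exact this
    · exact mul_ne_zero (mul_ne_zero (mul_ne_zero (mul_ne_zero hr' hM') hN')
        (div_ne_zero (mul_ne_zero hr' hM') two_ne_zero)) hpos
  · have hpos := II_ne hL b1 b2 (Nat.mul_pos hM h2) (Nat.mul_pos hN h3) a1 a2 hne
    have := fin_off hr hN hM i0 hne (z / (r * M * N * (r * M * ((N * M : ℕ) : ℂ) / 2) *
      II (lgr 1) (N * M) (1 - (pp i0 : ℝ) / r) (M * qq i0) (N * qq' i0))) WW hWW
    rw [div_mul_cancel₀] at this
    · exact this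
    · exact mul_ne_zero (mul_ne_zero (mul_ne_zero (mul_ne_zero hr' hM') hN')
        (div_ne_zero (mul_ne_zero (mul_ne_zero hr' hM') (by exact_mod_cast hL.ne'))
          two_ne_zero)) hpos

theorem fin_all (hN : r + N < r * N) (hM : r + M < r * M)
    (WW : Submodule ℝ ((Idx r N M → ℂ) × ℝ × ℝ)) (hWW : ∀ ξ, IsCycle ξ → vec ξ ∈ WW) :
    WW = ⊤ := by
  have hN0 : 0 < N := by
    rcases Nat.eq_zero_or_pos N with h | h
    · subst h; simp at hN
    · exact h
  have hM0 : 0 < M := by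
    rcases Nat.eq_zero_or_pos M with h | h
    · subst h; simp at hM
    · exact h
  have hr : 2 ≤ r := by
    by_contra hc
    have : r = 0 ∨ r = 1 := by omega
    rcases this with h | h
    · subst h; simp at hN
    · subst h; omega
  have hr0 : (0 : ℝ) < r := by exact_mod_cast (by omega : 0 < r)
  have al : 0 < 1 - 1 / (r : ℝ) ∧ 1 - 1 / (r : ℝ) < 1 := by
    constructor
    · rw [sub_pos, div_lt_one hr0]
      exact_mod_cast (by omega : 1 < r)
    · have := div_pos one_pos hr0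
      linarith
  have key : ∀ n : ℕ, r + n < r * n → ((1 : ℕ) : ℝ) < (1 - 1 / (r : ℝ)) * n := by
    intro n hn
    have hn' : (r : ℝ) + n < r * n := by exact_mod_cast hn
    rw [← mul_lt_mul_iff_right₀ hr0]
    have e : (r : ℝ) * ((1 - 1 / (r : ℝ)) * n) = r * n - n := by field_simp
    rw [e]
    push_cast
    linarith
  have hfst : ∀ x : ℝ, ((0, x, 0) : (Idx r N M → ℂ) × ℝ × ℝ) ∈ WW := by
    intro x
    have h1 := hWW _ (fst_cycle hN0 hM0)
    rw [fst_vec hr] at h1
    have h2 := II_one_pos hN0 al.1 al.2 one_pos (key N hN)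
    have h3 : 0 < (r * II (fun _ => 1) N (1 - 1 / r) 1 1).re := by
      rw [← Complex.ofReal_natCast, Complex.re_ofReal_mul]
      exact mul_pos hr0 h2
    have h4 := WW.smul_mem (x / (r * II (fun _ => 1) N (1 - 1 / r) 1 1).re) h1
    rw [Prod.smul_mk, Prod.smul_mk, smul_zero, smul_zero, smul_eq_mul,
      div_mul_cancel₀ _ h3.ne'] at h4
    exact h4
  have hsnd : ∀ x : ℝ, ((0, 0, x) : (Idx r N M → ℂ) × ℝ × ℝ) ∈ WW := by
    intro x
    have h1 := hWW _ (snd_cycle hN0 hM0)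
    rw [snd_vec hr] at h1
    have h2 := II_one_pos hM0 al.1 al.2 one_pos (key M hM)
    have h3 : 0 < (r * II (fun _ => 1) M (1 - 1 / r) 1 1).re := by
      rw [← Complex.ofReal_natCast, Complex.re_ofReal_mul]
      exact mul_pos hr0 h2
    have h4 := WW.smul_mem (x / (r * II (fun _ => 1) M (1 - 1 / r) 1 1).re) h1
    rw [Prod.smul_mk, Prod.smul_mk, smul_zero, smul_zero, smul_eq_mul,
      div_mul_cancel₀ _ h3.ne'] at h4
    exact h4
  rw [eq_top_iff]
  rintro ⟨g, x, y⟩ -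
  have e : ((g, x, y) : (Idx r N M → ℂ) × ℝ × ℝ) =
      (∑ i, ((Pi.single i (g i), 0, 0) : (Idx r N M → ℂ) × ℝ × ℝ)) + (0, x, 0) + (0, 0, y) := by
    ext j
    · simp [Prod.fst_sum, Finset.sum_apply, Pi.single_apply]
    · simp [Prod.snd_sum]
    · simp [Prod.snd_sum]
  rw [e]
  exact WW.add_mem (WW.add_mem (WW.sum_mem fun i _ => fin_single hr hN0 hM0 i (g i) WW hWW)
    (hfst x)) (hsnd y)

theorem fin_dense (hN : r + N < r * N) (hM : r + M < r * M) : Dense (img r N M) := by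
  obtain ⟨WW, hW⟩ := exists_WW r N M
  have h := fin_all hN hM WW (fun ξ hξ => by
    have : vec ξ ∈ closure (img r N M) := subset_closure ⟨1, ξ, one_pos, hξ, by simp⟩
    rw [← hW] at this
    exact this)
  rw [dense_iff_closure_eq, ← hW, h]
  rfl

end

end Pool.Agent.Helper63.HF
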